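import Pool.Agent.Y103.Vb.Real

/-!
# Pairs of conjugate elements
-/

open Submodule

namespace Pool.Agent.Y103.Vp

open Pool.Agent.Y103.Vb

variable {K : Type*} [Field K] {ι : K ≃+* ℂ} {V V' V'' : Type*} [AddCommGroup V] [Module K V]
  [AddCommGroup V'] [Module K V'] [AddCommGroup V''] [Module K V'']

/-- The pairs of combinations of pairs in the relation `S`, with conjugate coefficients. -/
inductive CP (ι : K ≃+* ℂ) (S : V → V → Prop) : V → V → Prop
  | base {x y : V} : S x y → CP ι S x y
  | zero : CP ι S 0 0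
  | add {x y x' y' : V} : CP ι S x y → CP ι S x' y' → CP ι S (x + x') (y + y')
  | smul (a : K) {x y : V} : CP ι S x y → CP ι S (a • x) (cj ι a • y)

namespace CP

variable {S S₂ : V → V → Prop} {S' : V' → V' → Prop} {S'' : V'' → V'' → Prop}

lemma fn {x y : V} (h : CP ι S x y) (ℓ : V →ₗ[K] K) (hS : ∀ x y, S x y → cj ι (ℓ x) = ℓ y) :
    cj ι (ℓ x) = ℓ y := by
  induction h with
  | base h => exact hS _ _ h
  | zero => rw [map_zero, map_zero]
  | add _ _ h1 h2 => rw [map_add, map_add, map_add, h1, h2]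
  | smul a _ h => rw [ℓ.map_smul, ℓ.map_smul, smul_eq_mul, smul_eq_mul, map_mul, h]

lemma map {x y : V} (h : CP ι S x y) (φ : V →ₗ[K] V')
    (hS : ∀ x y, S x y → CP ι S' (φ x) (φ y)) : CP ι S' (φ x) (φ y) := by
  induction h with
  | base h => exact hS _ _ h
  | zero => rw [map_zero]; exact zero
  | add _ _ h1 h2 => rw [map_add, map_add]; exact add h1 h2
  | smul a _ h => rw [map_smul, map_smul]; exact smul a h

lemma mono {x y : V} (h : CP ι S x y) (hS : ∀ x y, S x y → S₂ x y) : CP ι S₂ x y :=
  h.map LinearMap.id fun x y h => base (hS x y h)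

lemma bind {x y : V} (h : CP ι S x y) (hS : ∀ x y, S x y → CP ι S₂ x y) : CP ι S₂ x y :=
  h.map LinearMap.id hS

lemma bilin₁ {x y : V} {x' y' : V'} (h' : CP ι S' x' y') (h : S x y)
    (φ : V →ₗ[K] V' →ₗ[K] V'')
    (hS : ∀ x y x' y', S x y → S' x' y' → CP ι S'' (φ x x') (φ y y')) :
    CP ι S'' (φ x x') (φ y y') := by
  induction h' with
  | base h' => exact hS _ _ _ _ h h'
  | zero => rw [map_zero, map_zero]; exact zero
  | add _ _ h1 h2 => rw [map_add, map_add]; exact add h1 h2
  | smul a _ h => rw [map_smul, map_smul]; exact smul a h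

lemma bilin {x y : V} {x' y' : V'} (h : CP ι S x y) (h' : CP ι S' x' y')
    (φ : V →ₗ[K] V' →ₗ[K] V'')
    (hS : ∀ x y x' y', S x y → S' x' y' → CP ι S'' (φ x x') (φ y y')) :
    CP ι S'' (φ x x') (φ y y') := by
  induction h with
  | base h => exact bilin₁ h' h φ hS
  | zero => rw [map_zero, LinearMap.zero_apply, LinearMap.zero_apply]; exact zero
  | add _ _ h1 h2 =>
    rw [map_add, map_add, LinearMap.add_apply, LinearMap.add_apply]
    exact add h1 h2
  | smul a _ h =>
    rw [map_smul, map_smul, LinearMap.smul_apply, LinearMap.smul_apply]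
    exact smul a h

lemma sum {J : Type*} (s : Finset J) {x y : J → V} (h : ∀ j ∈ s, CP ι S (x j) (y j)) :
    CP ι S (∑ j ∈ s, x j) (∑ j ∈ s, y j) := by
  classical
  induction s using Finset.induction_on with
  | empty => rw [Finset.sum_empty, Finset.sum_empty]; exact zero
  | insert a s ha ih =>
    rw [Finset.sum_insert ha, Finset.sum_insert ha]
    exact add (h a (by simp)) (ih fun j hj => h j (by simp [hj]))

lemma smul_real {a : K} (ha : cj ι a = a) {x y : V} (h : CP ι S x y) :
    CP ι S (a • x) (a • y) := by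
  have := smul a h
  rwa [ha] at this

end CP

end Pool.Agent.Y103.Vp
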