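import Pool.Agent.Y103.Vb.Defs

/-!
# Products of varieties of hyperkaehler type: definitions
-/

open CategoryTheory AlgebraicGeometry

universe u v w

namespace Pool.Agent.Y103.Vp

open Pool.Agent.H914 Pool.Agent.H914.VarClass Pool.Agent.H914.VarClass.Obj
  Pool.Agent.H914.WeilCohomology Pool.Agent.W552 Pool.Agent.Y103 Pool.Agent.Y103.Vb

/-- The numbers in the sets `E j` satisfy only the obvious multiplicative relations with at most
`M` factors: if a product of `l ≤ M` of them is `q ^ l`, up to a root of unity, then it is a
product of pairs `α`, `q ^ 2 / α` of numbers belonging to the same index `j`. -/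
def NeatWithin {J : Type w} {K : Type*} [Field K] (E : J → Set K) (q M : ℕ) : Prop :=
  ∀ s : Multiset (J × K), s.card ≤ M → (∀ x ∈ s, x.2 ∈ E x.1) → ∀ m ≥ 1,
    (s.map Prod.snd).prod ^ m = (q : K) ^ (m * s.card) →
    ∃ t : Multiset (J × K), s = t + t.map (fun x => (x.1, (q : K) ^ 2 / x.2))

section Alg

variable {K : Type*} [Field K]

/-- The eigenvalues of the operator `F` on the subspace `T`. -/
def eigenvaluesOn {V : Type*} [AddCommGroup V] [Module K V] (F : Module.End K V)
    (T : Submodule K V) : Set K := {α | ∃ v ∈ T, v ≠ 0 ∧ F v = α • v}

variable {A B : Type*} [Ring A] [Algebra K A] [Ring B] [Algebra K B]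

/-- The hard Lefschetz theorem for the element `ξ` in the subalgebra generated by `R`: every
element of degree `2 n - j` of it (the degree is the number of factors), where `j ≤ n`, is the
product of `ξ ^ (2 n - 2 j)` with an element of degree `j` of it. -/
def LefschetzGen (R : Submodule K A) (ξ : A) (n : ℕ) : Prop :=
  ∀ j ≤ n, ∀ y ∈ genRing K (fun _ => (R : Set A)) 1 (2 * n - j),
    ∃ x ∈ genRing K (fun _ => (R : Set A)) 1 j, y = ξ ^ (2 * n - 2 * j) * x

/-- The element `x` is in the subalgebra generated by the set `G`. -/
def InAdjoin (K : Type*) [Field K] {A : Type*} [Ring A] [Algebra K A] (G : Set A) (x : A) : Prop :=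
  x ∈ Algebra.adjoin K G

/-- The algebra is generated by the subspace `R`. -/
def IsGeneratedBy (R : Submodule K A) : Prop := ∀ x : A, InAdjoin K (R : Set A) x

/-- The image of a subspace under a homomorphism of algebras. -/
def imageOf (φ : A →ₐ[K] B) (R : Submodule K A) : Set B := {x | ∃ y ∈ R, x = φ y}

end Alg

variable {k : Type u} [Field k] {𝒱 : VarClass k} {ops : CycleOps 𝒱}

/-- The hard Lefschetz theorem for the subalgebra generated by the second cohomology of a variety
`X` of dimension `2 n`: every element of degree `2 n - j` of it (the degree is the number of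
factors), where `j ≤ n`, is the product of the power `2 n - 2 j` of the class of `D` with an
element of degree `j` of it. -/
def LefschetzOnTwo (W : WeilCohomology.{u, v} ops) (X : 𝒱.Obj) (D : X.Cycles) (n : ℕ) : Prop :=
  LefschetzGen (W.gr X 2) (W.cl X D) n

/-- The eigenvalues of the endomorphism on the transcendental part of the second cohomology. -/
def transEigenvalues (W : WeilCohomology.{u, v} ops) (P : PolVar 𝒱) (b : CForm W P.X) : Set W.K :=
  eigenvaluesOn (W.map P.f).toLinearMap (transTwo W P.X b)

/-- A variety `X` of dimension `2 n` of hyperkaehler type over a finite field, with the form `b` on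
`H^2(X)`, a polarizing divisor `D` and a Frobenius endomorphism `f` relative to the field with `q`
elements: the divisor satisfies the hard Lefschetz theorem, the Lefschetz standard conjecture and
the Hodge index theorem, and `b (D, D)` is rational and positive; the Fujiki relation holds; the
subalgebra generated by the second cohomology satisfies the hard Lefschetz theorem (an assumption
only for `n ≥ 3`); `f` acts on the classes of cycles of codimension `j` as `q ^ j`, up to roots of
unity, satisfies the Riemann hypothesis on `H^2(X)` and has simple spectrum on its transcendental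
part. -/
structure IsHyperkaehlerType (W : WeilCohomology.{u, v} ops) (P : PolVar 𝒱) (n : ℕ)
    (b : CForm W P.X) (c : ℚ) (q : ℕ) : Prop where
  dim : P.X.dim = 2 * n
  pos : 1 ≤ n
  div : P.X.IsCyc 1 P.D
  hardLefschetz : HardLefschetz W P.X P.D
  lefschetzB : LefschetzB W P.X P.D
  index : HodgeTypeFor W P.X P.D (InRing W.K (algClasses W P.X) 1 1)
  polar : PositiveOn W P.X b P.D
  fujiki : FujikiRelation W P.X n b c
  closed : 3 ≤ n → LefschetzOnTwo W P.X P.D n
  frobenius : FrobeniusOnCycles W P.X P.f q
  weight : WeightTwo W P.X P.f q
  simple : SimpleTwo W P.X b P.f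

/-- The shapes of the iterated products of members of a family with index set `J`: finite binary
trees whose leaves are labelled by elements of `J`. -/
inductive Shape (J : Type w) : Type w
  | one (j : J) : Shape J
  | mul (s t : Shape J) : Shape J

/-- The iterated product of members of the family `P` of a given shape (with any bracketing and
repetitions), with the product divisor and the product endomorphism. -/
noncomputable def Shape.obj (ops : CycleOps 𝒱) {J : Type w} (P : J → PolVar 𝒱) :
    Shape J → PolVar 𝒱
  | Shape.one j => P j
  | Shape.mul s t => (s.obj ops P).prod ops (t.obj ops P)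

/-- The projections of the iterated product onto its factors. -/
inductive Shape.IsProj (ops : CycleOps 𝒱) {J : Type w} (P : J → PolVar 𝒱) :
    (s : Shape J) → (j : J) → ((s.obj ops P).X ⟶ (P j).X) → Prop
  | one (j : J) : Shape.IsProj ops P (Shape.one j) j (𝟙 (P j).X)
  | left {s t : Shape J} {j : J} {π : (s.obj ops P).X ⟶ (P j).X} : Shape.IsProj ops P s j π →
      Shape.IsProj ops P (Shape.mul s t) j (fst (s.obj ops P).X (t.obj ops P).X ≫ π)
  | right {s t : Shape J} {j : J} {π : (t.obj ops P).X ⟶ (P j).X} : Shape.IsProj ops P t j π →
      Shape.IsProj ops P (Shape.mul s t) j (snd (s.obj ops P).X (t.obj ops P).X ≫ π)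

/-- The classes on the iterated product which are pulled back from the second cohomology groups of
the factors. -/
def Shape.gens (W : WeilCohomology.{u, v} ops) {J : Type w} (P : J → PolVar 𝒱) (s : Shape J) :
    Set (W.H (s.obj ops P).X) :=
  {x | ∃ j π, s.IsProj ops P j π ∧ x ∈ imageOf (W.map π) (W.gr (P j).X 2)}

/-- The subalgebra of the cohomology of the iterated product generated by the second cohomology
groups of the factors. -/
def InFactorTwo (W : WeilCohomology.{u, v} ops) {J : Type w} (P : J → PolVar 𝒱) (s : Shape J) :
    W.H (s.obj ops P).X → Prop := InAdjoin W.K (s.gens W P)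

/-- The cohomology algebra of `X` is generated by the second cohomology (for example a K3 surface,
or a variety of K3^[2]-type). -/
def GeneratedByTwo (W : WeilCohomology.{u, v} ops) (X : 𝒱.Obj) : Prop :=
  IsGeneratedBy (W.gr X 2)

end Pool.Agent.Y103.Vp
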