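import Pool.Agent.Y103.Vp.CP
import Pool.Agent.H281R3.HT.Prod
import Pool.Agent.W552.AS
import Pool.Agent.W552.TautStmt

/-!
# Real frames of the cohomology of a product
-/

open CategoryTheory AlgebraicGeometry Submodule

universe u v

namespace Pool.Agent.Y103.Vp

open Pool.Agent.H914 Pool.Agent.H914.VarClass Pool.Agent.H914.VarClass.Obj
  Pool.Agent.H914.WeilCohomology Pool.Agent.H281R3.HT Pool.Agent.W552 Pool.Agent.Y103.Vb

variable {k : Type u} [Field k] {𝒱 : VarClass k} {ops : CycleOps 𝒱}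
  {W : WeilCohomology.{u, v} ops} {Y Z : 𝒱.Obj}

/-- An orthogonal family of real elements. -/
structure RFrm (W : WeilCohomology.{u, v} ops) (ι : W.K ≃+* ℂ) (Y : 𝒱.Obj) (D : Y.Cycles)
    (f : Module.End W.K (W.H Y)) {I : Type} (v : I → W.H Y) (a : I → ℕ)
    (d : I → ℝ) (S : W.H Y → W.H Y → Prop) : Prop where
  hD : Y.IsCyc 1 D
  sl2 : Sl2 (wt (W.isInternal Y) Y.dim) (LinearMap.mulLeft W.K (W.cl Y D)) f
  fop : AOp W Y Y f
  mem : ∀ i, v i ∈ W.gr Y (2 * a i)
  wmem : ∀ i, ∃ l, wop W Y D f (v i) ∈ W.gr Y (2 * l)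
  pos : ∀ i, 0 < d i
  vv : ∀ i, W.tr Y (v i * wop W Y D f (v i)) = (-1 : W.K) ^ a i * ι.symm (d i : ℂ)
  vv0 : ∀ i j, i ≠ j → W.tr Y (v i * wop W Y D f (v j)) = 0
  real : ∀ i, CP ι S (v i) (v i)
  one : (1 : W.H Y) ∈ span W.K (Set.range v)
  mul : ∀ x ∈ span W.K (Set.range v), ∀ y ∈ span W.K (Set.range v),
    x * y ∈ span W.K (Set.range v)

/-- The relation on a product. -/
def prodRel (S : W.H Y → W.H Y → Prop) (S' : W.H Z → W.H Z → Prop) (x y : W.H (Y.prod Z)) :
    Prop := ∃ x₁ y₁ x₂ y₂, S x₁ y₁ ∧ S' x₂ y₂ ∧ x = W.map (fst Y Z) x₁ * W.map (snd Y Z) x₂ ∧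
      y = W.map (fst Y Z) y₁ * W.map (snd Y Z) y₂

/-- The external product as a bilinear map. -/
noncomputable def extBil (W : WeilCohomology.{u, v} ops) (Y Z : 𝒱.Obj) :
    W.H Y →ₗ[W.K] W.H Z →ₗ[W.K] W.H (Y.prod Z) :=
  (LinearMap.mul W.K (W.H (Y.prod Z))).compl₁₂ (W.map (fst Y Z)).toLinearMap
    (W.map (snd Y Z)).toLinearMap

lemma extBil_apply (x : W.H Y) (y : W.H Z) :
    extBil W Y Z x y = W.map (fst Y Z) x * W.map (snd Y Z) y := rfl

section prod

variable {ι : W.K ≃+* ℂ} {D : Y.Cycles} {E : Z.Cycles} {f : Module.End W.K (W.H Y)}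
  {f' : Module.End W.K (W.H Z)} {I I' : Type} {v : I → W.H Y} {v' : I' → W.H Z} {a : I → ℕ}
  {a' : I' → ℕ} {d : I → ℝ} {d' : I' → ℝ} {S : W.H Y → W.H Y → Prop}
  {S' : W.H Z → W.H Z → Prop}

/-- External products of elements of the spans. -/
lemma ext_mem {x : W.H Y} {y : W.H Z} (hx : x ∈ span W.K (Set.range v))
    (hy : y ∈ span W.K (Set.range v')) :
    W.map (fst Y Z) x * W.map (snd Y Z) y ∈ span W.K (Set.range fun i : I × I' =>
      W.map (fst Y Z) (v i.1) * W.map (snd Y Z) (v' i.2)) := by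
  induction hx using span_induction with
  | mem x hx =>
    obtain ⟨i, rfl⟩ := hx
    induction hy using span_induction with
    | mem y hy =>
      obtain ⟨i', rfl⟩ := hy
      exact subset_span ⟨(i, i'), rfl⟩
    | zero => rw [map_zero, mul_zero]; exact zero_mem _
    | add x y _ _ hx hy => rw [map_add, mul_add]; exact add_mem hx hy
    | smul c x _ hx => rw [map_smul, mul_smul_comm]; exact smul_mem _ _ hx
  | zero => rw [map_zero, zero_mul]; exact zero_mem _
  | add x y _ _ hx hy => rw [map_add, add_mul]; exact add_mem hx hy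
  | smul c x _ hx => rw [map_smul, smul_mul_assoc]; exact smul_mem _ _ hx

/-- **The product of two frames.** -/
theorem RFrm.prod (F : RFrm W ι Y D f v a d S) (G : RFrm W ι Z E f' v' a' d' S') :
    RFrm W ι (Y.prod Z) (ops.pull (fst Y Z) D + ops.pull (snd Y Z) E) (extSum W f f')
      (fun i : I × I' => W.map (fst Y Z) (v i.1) * W.map (snd Y Z) (v' i.2))
      (fun i => a i.1 + a' i.2) (fun i => d i.1 * d' i.2) (prodRel S S') := by
  have hform : ∀ (x : W.H Y) (i' : I') (j : I) (y' : W.H Z),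
      W.tr _ (W.map (fst Y Z) x * W.map (snd Y Z) (v' i') *
      wop W (Y.prod Z) (ops.pull (fst Y Z) D + ops.pull (snd Y Z) E) (extSum W f f')
      (W.map (fst Y Z) (v j) * W.map (snd Y Z) y')) =
      W.tr Y (x * wop W Y D f (v j)) * W.tr Z (v' i' * wop W Z E f' y') := by
    intro x i' j y'
    obtain ⟨l, hl⟩ := F.wmem j
    rw [form_mul F.sl2 G.sl2 G.hD (G.mem i') hl, neg_one_pow_even, one_mul]
  refine ⟨?_, ?_, ?_, ?_, ?_, ?_, ?_, ?_, ?_, ?_, ?_⟩
  · exact SmVar.IsCyc.add (ops.pull_mem _ F.hD) (ops.pull_mem _ G.hD)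
  · rw [wt_prod, mulLeft_prod G.hD]
    exact sl2_prod F.sl2 G.sl2
  · exact (AOp.ext F.fop AOp.one).add (AOp.ext AOp.one G.fop)
  · intro i
    have := W.mul_mem (W.map_mem (fst Y Z) (F.mem i.1)) (W.map_mem (snd Y Z) (G.mem i.2))
    rwa [← mul_add] at this
  · intro i
    obtain ⟨l, hl⟩ := F.wmem i.1
    obtain ⟨l', hl'⟩ := G.wmem i.2
    refine ⟨l + l', ?_⟩
    rw [wop_prod F.sl2 G.sl2 G.hD, mul_add]
    exact W.mul_mem (W.map_mem _ hl) (W.map_mem _ hl')
  · intro i
    exact mul_pos (F.pos _) (G.pos _)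
  · intro i
    rw [hform, F.vv, G.vv, pow_add, Complex.ofReal_mul, map_mul]
    ring
  · rintro ⟨i, i'⟩ ⟨j, j'⟩ hij
    rw [hform]
    by_cases h : i = j
    · subst h
      rw [G.vv0 i' j' (fun h => hij (by rw [h])), mul_zero]
    · rw [F.vv0 i j h, zero_mul]
  · intro i
    exact (F.real i.1).bilin (G.real i.2) (extBil W Y Z) fun x y x' y' h h' =>
      CP.base ⟨x, y, x', y', h, h', rfl, rfl⟩
  · have := ext_mem F.one G.one
    rwa [map_one, map_one, mul_one] at this
  · intro x hx y hy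
    induction hx using span_induction with
    | mem x hx =>
      obtain ⟨i, rfl⟩ := hx
      induction hy using span_induction with
      | mem y hy =>
        obtain ⟨j, rfl⟩ := hy
        dsimp only
        rw [tmul_mul (G.mem i.2) (F.mem j.1), neg_one_pow_even, one_smul]
        exact ext_mem (F.mul _ (subset_span ⟨_, rfl⟩) _ (subset_span ⟨_, rfl⟩))
          (G.mul _ (subset_span ⟨_, rfl⟩) _ (subset_span ⟨_, rfl⟩))
      | zero => rw [mul_zero]; exact zero_mem _
      | add x y _ _ hx hy => rw [mul_add]; exact add_mem hx hy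
      | smul c x _ hx => rw [mul_smul_comm]; exact smul_mem _ _ hx
    | zero => rw [zero_mul]; exact zero_mem _
    | add x y _ _ hx hy => rw [add_mul]; exact add_mem hx hy
    | smul c x _ hx => rw [smul_mul_assoc]; exact smul_mem _ _ hx

lemma RFrm.mono {S₂ : W.H Y → W.H Y → Prop} (F : RFrm W ι Y D f v a d S)
    (h : ∀ x y, S x y → S₂ x y) : RFrm W ι Y D f v a d S₂ :=
  ⟨F.hD, F.sl2, F.fop, F.mem, F.wmem, F.pos, F.vv, F.vv0, fun i => (F.real i).mono h, F.one, F.mul⟩

end prod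

section Pos

variable {ι : W.K ≃+* ℂ} {D : Y.Cycles} {f : Module.End W.K (W.H Y)}
  {I : Type} [Fintype I] {v : I → W.H Y} {a : I → ℕ} {d : I → ℝ} {S : W.H Y → W.H Y → Prop}
  (F : RFrm W ι Y D f v a d S)
  (hS : ∀ z, AS W Y z → ∀ x y, S x y → cj ι (W.tr Y (z * x)) = W.tr Y (z * y))

include F

omit [Fintype I] in
lemma RFrm.ne0 (i : I) : (-1 : W.K) ^ a i * ι.symm (d i : ℂ) ≠ 0 := by
  refine mul_ne_zero (pow_ne_zero _ (by norm_num)) ?_
  rw [Ne, map_eq_zero_iff _ ι.symm.injective]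
  exact_mod_cast (F.pos i).ne'

lemma RFrm.coef (s : I → W.K) (i : I) :
    W.tr Y ((∑ j, s j • v j) * wop W Y D f (v i)) = s i * ((-1 : W.K) ^ a i * ι.symm (d i : ℂ)) := by
  rw [Finset.sum_mul, map_sum, Finset.sum_eq_single i]
  · rw [smul_mul_assoc, map_smul, F.vv i, smul_eq_mul]
  · intro j _ hj
    rw [smul_mul_assoc, map_smul, F.vv0 j i hj, smul_zero]
  · intro h; exact absurd (Finset.mem_univ _) h

omit F in
lemma cj_symm_real (r : ℝ) : cj ι (ι.symm (r : ℂ)) = ι.symm (r : ℂ) := by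
  rw [cj_apply, ι.apply_symm_apply, Complex.conj_ofReal]

omit F in
lemma exists_real' {s : W.K} (h : cj ι s = s) : ∃ r : ℝ, s = ι.symm (r : ℂ) := exists_real ι h

include hS

/-- The coefficients of algebraic classes are real. -/
lemma RFrm.alg_real {j : ℕ} {z : W.H Y} (hz : z ∈ algClasses W Y j)
    (hzs : z ∈ span W.K (Set.range v)) :
    ∃ t : I → ℝ, (∀ i, a i ≠ j → t i = 0) ∧ z = ∑ i, ι.symm (t i : ℂ) • v i := by
  rw [mem_span_range_iff_exists_fun] at hzs
  obtain ⟨s, hs⟩ := hzs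
  -- the adjoint of the Weyl operator
  have hw : AOp W Y Y (wop W Y D f) :=
    AOp.wey (AOp.of_rop (rop_mulLeft F.hD)) F.fop F.sl2.nil_e F.sl2.nil_f
  obtain ⟨w', hw', hadj⟩ := hw.adj
  have h1 : ∀ x y, CP ι S x y → cj ι (W.tr Y (z * wop W Y D f x)) =
      W.tr Y (z * wop W Y D f y) := by
    intro x y hxy
    have e1 : ∀ x, W.tr Y (z * wop W Y D f x) = W.tr Y (w' z * x) := by
      intro x
      rw [alg_even_comm hz, hadj x z, (hw'.apply (AS.of hz)).comm x]
    rw [e1, e1]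
    exact hxy.fn (W.tr Y ∘ₗ LinearMap.mulLeft W.K (w' z)) fun x y h =>
      hS _ (hw'.apply (AS.of hz)) x y h
  have h2 : ∀ i, ∃ r : ℝ, s i = ι.symm (r : ℂ) := by
    intro i
    have h3 := h1 _ _ (F.real i)
    rw [← hs, F.coef, map_mul, map_mul, cj_symm_real, map_pow, map_neg, map_one] at h3
    exact exists_real' (mul_right_cancel₀ (F.ne0 i) h3)
  choose r hr using h2
  have hz2 : z = ∑ i, ι.symm (r i : ℂ) • v i := by
    rw [← hs]
    exact Finset.sum_congr rfl fun i _ => by rw [hr]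
  refine ⟨r, ?_, hz2⟩
  intro i hi
  have h3 : z = ∑ i', (if a i' = j then ι.symm (r i' : ℂ) else 0) • v i' := by
    have e1 := proj_same (W.isInternal Y) (alg_gr hz)
    rw [← e1]
    conv_lhs => rw [hz2]
    rw [map_sum]
    apply Finset.sum_congr rfl
    intro i' _
    rw [map_smul]
    by_cases h4 : a i' = j
    · rw [if_pos h4, proj_same (W.isInternal Y) (h4 ▸ F.mem i')]
    · rw [if_neg h4, proj_ne (W.isInternal Y) (F.mem i') (by omega), smul_zero, zero_smul]
  have h4 := F.coef (fun i => ι.symm (r i : ℂ)) i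
  rw [← hz2, h3, F.coef, if_neg hi, zero_mul] at h4
  have h5 := (mul_eq_zero.1 h4.symm).resolve_right (F.ne0 i)
  rw [map_eq_zero_iff _ ι.symm.injective] at h5
  exact_mod_cast h5

/-- The form on algebraic classes. -/
lemma RFrm.form_alg {j : ℕ} {z : W.H Y} (hz : z ∈ algClasses W Y j)
    (hzs : z ∈ span W.K (Set.range v)) (hz0 : z ≠ 0) :
    ∃ s : ℝ, 0 < s ∧ W.tr Y (z * wop W Y D f z) = ι.symm (((-1) ^ j * s : ℝ) : ℂ) := by
  obtain ⟨t, ht, hzt⟩ := F.alg_real hS hz hzs
  refine ⟨∑ i, t i ^ 2 * d i, ?_, ?_⟩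
  · have h1 : ∃ i, t i ≠ 0 := by
      by_contra hcon
      push Not at hcon
      apply hz0
      rw [hzt]
      apply Finset.sum_eq_zero
      intro i _
      rw [hcon i, Complex.ofReal_zero, map_zero, zero_smul]
    obtain ⟨i, hi⟩ := h1
    apply Finset.sum_pos'
    · intro i _
      exact mul_nonneg (sq_nonneg _) (F.pos i).le
    · exact ⟨i, Finset.mem_univ _, mul_pos (by positivity) (F.pos i)⟩
  · have h1 : ∀ i, W.tr Y (z * wop W Y D f (v i)) =
        ι.symm (t i : ℂ) * ((-1 : W.K) ^ a i * ι.symm (d i : ℂ)) := by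
      intro i
      conv_lhs => rw [hzt]
      exact F.coef _ i
    have h2 : W.tr Y (z * wop W Y D f z) = ∑ i, ι.symm (t i : ℂ) *
        (ι.symm (t i : ℂ) * ((-1 : W.K) ^ a i * ι.symm (d i : ℂ))) := by
      have e1 : wop W Y D f z = ∑ i, ι.symm (t i : ℂ) • wop W Y D f (v i) := by
        conv_lhs => rw [hzt]
        rw [map_sum]
        exact Finset.sum_congr rfl fun i _ => map_smul _ _ _
      rw [e1, Finset.mul_sum, map_sum]
      apply Finset.sum_congr rfl
      intro i _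
      rw [mul_smul_comm, map_smul, h1, smul_eq_mul]
    rw [h2, Finset.mul_sum, Complex.ofReal_sum, map_sum]
    apply Finset.sum_congr rfl
    intro i _
    by_cases h3 : a i = j
    · rw [h3]
      push_cast
      simp only [map_mul, map_pow, map_neg, map_one]
      ring
    · rw [ht i h3]
      simp

/-- **The standard conjectures for the classes in the span.** -/
theorem RFrm.hodge {T : W.H Y → Prop} (hT : ∀ z, T z → z ∈ span W.K (Set.range v)) :
    HodgeTypeFor W Y D T ∧ HomEqNumFor W Y T := by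
  constructor
  · intro j hj z hz hTz hprim hz0
    set L : Module.End W.K (W.H Y) := LinearMap.mulLeft W.K (W.cl Y D) with hLdef
    have hcg : W.cl Y z ∈ W.gr Y (2 * j) := W.cl_mem hz
    have hwt : wt (W.isInternal Y) Y.dim (W.cl Y z) =
        -((Y.dim - 2 * j : ℕ) : W.K) • W.cl Y z := by
      rw [wt, scal_apply _ _ hcg, node]
      congr 1
      rw [Nat.cast_sub hj]
      push_cast
      ring
    have hfz : f (W.cl Y z) = 0 := by
      apply F.sl2.f_eq_zero hwt
      rw [← cl_divPow]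
      exact hprim
    have h4 := wey_lowest F.sl2 hfz hwt
    obtain ⟨s, hs, hs'⟩ := F.form_alg hS (z := W.cl Y z) ⟨z, hz, rfl⟩ (hT _ hTz) hz0
    have h5 : W.tr Y (W.cl Y z * wop W Y D f (W.cl Y z)) =
        ((((Y.dim - 2 * j).factorial : ℚ)⁻¹ *
          Y.V.degCycle (ops.mul z (divPow ops D (Y.dim - 2 * j) z)) : ℚ) : W.K) := by
      rw [wop, h4, mul_smul_comm, map_smul, ← cl_divPow, ← W.cl_mul, W.tr_cl]
      · push_cast
        rw [smul_eq_mul]
      · have := ops.mul_mem hz (divPow_mem (ops := ops) F.hD (Y.dim - 2 * j) hz)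
        rwa [show j + (j + (Y.dim - 2 * j)) = Y.dim by omega] at this
    rw [hs'] at h5
    have h6 := congrArg ι h5
    rw [ι.apply_symm_apply, map_ratCast] at h6
    have h6' : ((-1) ^ j * s : ℝ) = ((((Y.dim - 2 * j).factorial : ℚ)⁻¹ *
          Y.V.degCycle (ops.mul z (divPow ops D (Y.dim - 2 * j) z)) : ℚ) : ℝ) := by
      exact_mod_cast h6
    set g : ℚ := Y.V.degCycle (ops.mul z (divPow ops D (Y.dim - 2 * j) z)) with hg
    have h7 : (0 : ℝ) < (Y.dim - 2 * j).factorial := by positivity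
    have h8 : ((-1 : ℝ) ^ j * (g : ℝ)) = ((Y.dim - 2 * j).factorial : ℝ) * s := by
      have e1 : (g : ℝ) = ((Y.dim - 2 * j).factorial : ℝ) * ((-1) ^ j * s) := by
        rw [h6']
        push_cast
        field_simp
      rw [e1]
      have e2 : (-1 : ℝ) ^ j * (-1) ^ j = 1 := by rw [← mul_pow]; simp
      linear_combination ((Y.dim - 2 * j).factorial : ℝ) * s * e2
    have h9 : (0 : ℝ) < (((-1 : ℚ) ^ j * g : ℚ) : ℝ) := by
      push_cast
      rw [h8]
      exact mul_pos h7 hs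
    exact_mod_cast h9
  · intro j hj z hz hTz hnum
    by_contra hz0
    obtain ⟨s, hs, hs'⟩ := F.form_alg hS (z := W.cl Y z) ⟨z, hz, rfl⟩ (hT _ hTz) hz0
    have hw : AOp W Y Y (wop W Y D f) :=
      AOp.wey (AOp.of_rop (rop_mulLeft F.hD)) F.fop F.sl2.nil_e F.sl2.nil_f
    have h1 : AS W Y (wop W Y D f (W.cl Y z)) := hw.apply (AS.of ⟨z, hz, rfl⟩)
    have h2 : W.tr Y (W.cl Y z * wop W Y D f (W.cl Y z)) = 0 := by
      generalize wop W Y D f (W.cl Y z) = y at h1
      refine AS.ind (p := fun y => W.tr Y (W.cl Y z * y) = 0) ?_ ?_ h1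
      · rintro i _ ⟨w, hw, rfl⟩
        by_cases hi : i = Y.dim - j
        · subst hi
          have h2 := ops.mul_mem hz hw
          rw [show j + (Y.dim - j) = Y.dim by omega] at h2
          rw [← W.cl_mul, W.tr_cl h2, hnum w hw, Rat.cast_zero]
        · rw [W.tr_eq_zero (W.mul_mem (W.cl_mem hz) (W.cl_mem hw)) (by omega)]
      · intro a b ha hb
        rw [mul_add, map_add, ha, hb, add_zero]
    rw [hs'] at h2
    rw [map_eq_zero_iff _ ι.symm.injective] at h2
    have h3 : ((-1) ^ j * s : ℝ) = 0 := by exact_mod_cast h2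
    rcases mul_eq_zero.1 h3 with h4 | h4
    · exact pow_ne_zero _ (by norm_num) h4
    · exact hs.ne' h4

end Pos

end Pool.Agent.Y103.Vp
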