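import Pool.Agent.Y103.Vp.Tok

/-!
# Products of varieties of hyperkaehler type
-/

set_option linter.unusedSectionVars false

open CategoryTheory AlgebraicGeometry Submodule

universe u v w

namespace Pool.Agent.Y103.Vp

open Pool.Agent.H914 Pool.Agent.H914.VarClass Pool.Agent.H914.VarClass.Obj
  Pool.Agent.H914.WeilCohomology Pool.Agent.H281R3.HT Pool.Agent.W552 Pool.Agent.Y103
  Pool.Agent.Y103.Fj Pool.Agent.Y103.Vb

variable {k : Type u} [Field k] {𝒱 : VarClass k} {ops : CycleOps 𝒱}
  {W : WeilCohomology.{u, v} ops}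

lemma gen_one {X : 𝒱.Obj} (a : W.K) :
    a • (1 : W.H X) ∈ genRing W.K (fun _ => (W.gr X 2 : Set (W.H X))) 1 0 :=
  smul_mem _ _ (subset_span IsMonomial.one)

lemma gen_two {X : 𝒱.Obj} {a : W.H X} (ha : a ∈ W.gr X 2) :
    a ∈ genRing W.K (fun _ => (W.gr X 2 : Set (W.H X))) 1 1 := by
  have h1 : IsMonomial (fun _ => (W.gr X 2 : Set (W.H X))) 1 (1 + 0) (a * 1) :=
    IsMonomial.mul le_rfl le_rfl ha IsMonomial.one
  rw [mul_one, add_zero] at h1
  exact subset_span h1

/-- The hard Lefschetz theorem for the subalgebra holds automatically in dimension at most four. -/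
lemma lefschetzOnTwo_small {X : 𝒱.Obj} {D : X.Cycles} {n : ℕ} (hn : X.dim = 2 * n) (hn2 : n ≤ 2)
    (hD : X.IsCyc 1 D) (hHL : HardLefschetz W X D) (ht : W.tr X (W.cl X D ^ (2 * n)) ≠ 0) :
    LefschetzOnTwo W X D n := by
  intro j hj y hy
  have hyg := gen_gr hy
  have h3 : j = 0 ∨ j = 1 ∨ j = n := by omega
  rcases h3 with rfl | rfl | rfl
  · refine ⟨(W.tr X y / W.tr X (W.cl X D ^ (2 * n))) • 1, gen_one _, ?_⟩
    rw [mul_zero, Nat.sub_zero, mul_smul_comm, mul_one, ← sub_eq_zero]
    apply top_eq_zero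
    · refine sub_mem ?_ (smul_mem _ _ ?_)
      · rwa [Nat.sub_zero, ← hn] at hyg
      · have := alg_gr (W := W) (pow_alg (W := W) hD (2 * n))
        rwa [← hn] at this ⊢
    · rw [map_sub, map_smul, smul_eq_mul, div_mul_cancel₀ _ ht, sub_self]
  · obtain ⟨a, ha, hay⟩ := (hHL 2 (by omega)).2 y (by
      rw [hn]
      convert hyg using 2
      omega)
    refine ⟨a, gen_two ha, ?_⟩
    rw [← hay, mulLeft_pow_apply', hn]
  · refine ⟨y, ?_, ?_⟩
    · rwa [show 2 * j - j = j by omega] at hy
    · rw [Nat.sub_self, pow_zero, one_mul]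

lemma hasTop_prod {X Y : 𝒱.Obj} (hX : HasTop W X) (hY : HasTop W Y) : HasTop W (X.prod Y) := by
  obtain ⟨z, hz, hz0⟩ := hX
  obtain ⟨z', hz', hz'0⟩ := hY
  refine ⟨ops.mul (ops.pull (fst X Y) z) (ops.pull (snd X Y) z'), ?_, ?_⟩
  · rw [dim_prod]
    exact ops.mul_mem (ops.pull_mem _ hz) (ops.pull_mem _ hz')
  · rw [W.cl_mul, W.cl_pull, W.cl_pull, W.tr_prod]
    exact mul_ne_zero hz0 hz'0

/-- The subalgebra is contained in the span of the frame. -/
lemma adjoin_le {Y : 𝒱.Obj} {ι : W.K ≃+* ℂ} {D : Y.Cycles} {f : Module.End W.K (W.H Y)} {I : Type}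
    {v : I → W.H Y} {a : I → ℕ} {d : I → ℝ} {S : W.H Y → W.H Y → Prop}
    (F : RFrm W ι Y D f v a d S) {G : Set (W.H Y)} (hG : ∀ y ∈ G, y ∈ span W.K (Set.range v))
    {y : W.H Y} (hy : y ∈ Algebra.adjoin W.K G) : y ∈ span W.K (Set.range v) := by
  induction hy using Algebra.adjoin_induction with
  | mem y hy => exact hG y hy
  | algebraMap r =>
    rw [Algebra.algebraMap_eq_smul_one]
    exact smul_mem _ _ F.one
  | add x y _ _ hx hy => exact add_mem hx hy
  | mul x y _ _ hx hy => exact F.mul _ hx _ hy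

lemma adjoin_map {K A B : Type*} [Field K] [Ring A] [Ring B] [Algebra K A] [Algebra K B]
    (φ : A →ₐ[K] B) {G : Set A} {G' : Set B} (h : ∀ y ∈ G, φ y ∈ Algebra.adjoin K G') {y : A}
    (hy : y ∈ Algebra.adjoin K G) : φ y ∈ Algebra.adjoin K G' := by
  induction hy using Algebra.adjoin_induction with
  | mem y hy => exact h y hy
  | algebraMap r =>
    rw [AlgHom.commutes]
    exact Subalgebra.algebraMap_mem _ r
  | add x y _ _ hx hy => rw [map_add]; exact add_mem hx hy
  | mul x y _ _ hx hy => rw [map_mul]; exact mul_mem hx hy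

section fam

variable {J : Type w} {P : J → PolVar 𝒱} {n : J → ℕ} {b : ∀ j, CForm W (P j).X} {c : J → ℚ}
  {q M : ℕ} {ι : W.K ≃+* ℂ}

lemma neat_single (hN : NeatWithin (fun j => transEigenvalues W (P j) (b j)) q M) (hM : 2 ≤ M)
    (j : J) : NeatUpTo (W.map (P j).f).toLinearMap (TT W (P j).X (b j)) q 2 := by
  intro s hs hsv m hm h
  obtain ⟨t, ht⟩ := hN (s.map fun α => (j, α)) (by rw [Multiset.card_map]; omega) (by
    intro x hx
    obtain ⟨α, hα, rfl⟩ := Multiset.mem_map.1 hx
    obtain ⟨v, hv, hv0, hfv⟩ := hsv α hα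
    refine ⟨v, ?_, hv0, hfv⟩
    rw [transTwo_eq]
    exact hv) m hm (by
    rw [Multiset.map_map, Multiset.card_map]
    have e1 : (Prod.snd ∘ fun α : W.K => (j, α)) = id := rfl
    rw [e1, Multiset.map_id]
    exact h)
  refine ⟨t.map Prod.snd, ?_⟩
  have h1 := congrArg (Multiset.map Prod.snd) ht
  rw [Multiset.map_map, Multiset.map_add, Multiset.map_map] at h1
  have e1 : (Prod.snd ∘ fun α : W.K => (j, α)) = id := rfl
  rw [e1, Multiset.map_id] at h1
  rw [h1, Multiset.map_map]
  rfl

lemma gens_one {j : J} {y : W.H (P j).X} (hy : y ∈ (Shape.one j).gens (ops := ops) W P) :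
    y ∈ W.gr (P j).X 2 := by
  obtain ⟨j', π, h, z, hz, rfl⟩ := hy
  cases h with
  | one =>
    have h1 : W.map (𝟙 (P j).X) z = z := W.map_id _ _
    exact h1.symm ▸ hz

lemma gens_mul {s t : Shape J} {y : W.H ((s.obj ops P).prod ops (t.obj ops P)).X}
    (hy : y ∈ (Shape.mul s t).gens W P) :
    (∃ z ∈ s.gens W P, y = W.map (fst (s.obj ops P).X (t.obj ops P).X) z) ∨
      ∃ z ∈ t.gens W P, y = W.map (snd (s.obj ops P).X (t.obj ops P).X) z := by
  obtain ⟨j', π, h, z, hz, rfl⟩ := hy
  cases h with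
  | left h => exact Or.inl ⟨_, ⟨_, _, h, z, hz, rfl⟩, W.map_comp _ _ _⟩
  | right h => exact Or.inr ⟨_, ⟨_, _, h, z, hz, rfl⟩, W.map_comp _ _ _⟩

lemma gens_left {s t : Shape J} {y : W.H (s.obj ops P).X} (hy : y ∈ s.gens W P) :
    W.map (fst (s.obj ops P).X (t.obj ops P).X) y ∈ (Shape.mul s t).gens W P := by
  obtain ⟨j', π, h, z, hz, rfl⟩ := hy
  exact ⟨_, _, Shape.IsProj.left h, z, hz, (W.map_comp _ _ _).symm⟩

lemma gens_right {s t : Shape J} {y : W.H (t.obj ops P).X} (hy : y ∈ t.gens W P) :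
    W.map (snd (s.obj ops P).X (t.obj ops P).X) y ∈ (Shape.mul s t).gens W P := by
  obtain ⟨j', π, h, z, hz, rfl⟩ := hy
  exact ⟨_, _, Shape.IsProj.right h, z, hz, (W.map_comp _ _ _).symm⟩

/-- **The frame of an iterated product.** -/
theorem exists_frame_shape {r : J → ℕ} {x : ∀ j, Fin (r j) × Bool → W.H (P j).X}
    {lam : ∀ j, Fin (r j) × Bool → W.K} (H : TF W ι P q M r x lam)
    (h1 : ∀ j, ∃ (F : Module.End W.K (W.H (P j).X)) (I : Type) (_ : Fintype I)
      (v : I → W.H (P j).X) (a : I → ℕ) (d : I → ℝ),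
      RFrm W ι (P j).X (P j).D F v a d (tokRel H (P j)) ∧
        ∀ y ∈ W.gr (P j).X 2, y ∈ span W.K (Set.range v))
    (h2 : ∀ j, HasTop W (P j).X) (s : Shape J) :
    (∃ (F : Module.End W.K (W.H (s.obj ops P).X)) (I : Type) (_ : Fintype I)
      (v : I → W.H (s.obj ops P).X) (a : I → ℕ) (d : I → ℝ),
      RFrm W ι (s.obj ops P).X (s.obj ops P).D F v a d (tokRel H (s.obj ops P)) ∧
        ∀ y ∈ s.gens W P, y ∈ span W.K (Set.range v)) ∧ HasTop W (s.obj ops P).X := by
  induction s with
  | one j =>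
    obtain ⟨F, I, hI, v, a, d, hF, hv⟩ := h1 j
    refine ⟨⟨F, I, hI, v, a, d, hF, ?_⟩, h2 j⟩
    intro y hy
    exact hv y (gens_one hy)
  | mul s t ihs iht =>
    obtain ⟨⟨F, I, _, v, a, d, hF, hv⟩, hs⟩ := ihs
    obtain ⟨⟨G, I', _, v', a', d', hG, hv'⟩, ht⟩ := iht
    refine ⟨⟨_, I × I', inferInstance, _, _, _, (hF.prod hG).mono fun y y' h => prodRel_tok H h,
      ?_⟩, hasTop_prod hs ht⟩
    intro y hy
    rcases gens_mul hy with ⟨z, hz, rfl⟩ | ⟨z, hz, rfl⟩
    · have := ext_mem (W := W) (hv z hz) hG.one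
      rwa [map_one, mul_one] at this
    · have := ext_mem (W := W) hF.one (hv' z hz)
      rwa [map_one, one_mul] at this

/-- **The standard conjectures for the products.** -/
theorem main (hP : ∀ j, IsHyperkaehlerType W (P j) (n j) (b j) (c j) q) (hq : q ≠ 0) (hM : 2 ≤ M)
    (hN : NeatWithin (fun j => transEigenvalues W (P j) (b j)) q M) (ι : W.K ≃+* ℂ) (s : Shape J)
    (hF : FrobeniusOnCycles W (s.obj ops P).X (s.obj ops P).f q)
    (hdim : (s.obj ops P).X.dim ≤ 2 * M) :
    StdFor W (s.obj ops P).X (s.obj ops P).D (InFactorTwo W P s) := by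
  choose σ hσ hbσ using fun j => (hP j).polar
  have hHyp : ∀ j, Hyp W (P j).X (P j).D (n j) (b j) (c j) (σ j) (P j).f q := fun j =>
    { hn := (hP j).dim
      hn1 := (hP j).pos
      hD := (hP j).div
      hHL := (hP j).hardLefschetz
      H := ⟨(hP j).fujiki.symm, (hP j).fujiki.pos, (hP j).fujiki.rel⟩
      hs := hσ j
      hb := hbσ j
      hI := (hP j).index
      hq := hq
      hRH := (hP j).weight
      hC := (hP j).frobenius
      hS := by
        have := (hP j).simple
        rwa [SimpleTwo, transTwo_eq] at this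
      hN := neat_single hN hM j }
  choose N e w B using fun j => (hHyp j).exists_divBasis
  choose r x lam E using fun j => exists_eigBasis (B j) (hHyp j) ι
  have hLC : ∀ j, LefschetzOnTwo W (P j).X (P j).D (n j) := by
    intro j
    by_cases hj : 3 ≤ n j
    · exact (hP j).closed hj
    · exact lefschetzOnTwo_small (hP j).dim (by omega) (hP j).div (hP j).hardLefschetz
        (hHyp j).tr_top_ne
  have H : TF W ι P q M r x lam :=
    { mem := fun j p => ((E j).mem p).1
      eig := fun j p => (E j).eig p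
      pair := fun j p => pair_cp (hHyp j) (B j) (E j) (hP j).lefschetzB p
      neat := by
        intro s hs m hm h
        set g : Lab r → J × W.K := fun t => (t.1, lam t.1 t.2) with hg
        have hginj : Function.Injective g := by
          rintro ⟨j, p⟩ ⟨j', p'⟩ hh
          have h1 : j = j' := congrArg Prod.fst hh
          subst h1
          have h2 : lam j p = lam j p' := congrArg Prod.snd hh
          rw [(E j).inj h2]
        obtain ⟨t, ht⟩ := hN (s.map g) (by rw [Multiset.card_map]; exact hs) (by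
          intro y hy
          obtain ⟨a, ha, rfl⟩ := Multiset.mem_map.1 hy
          refine ⟨x a.1 a.2, ?_, (E a.1).ne0 a.2, (E a.1).eig a.2⟩
          rw [transTwo_eq]
          exact (E a.1).mem a.2) m hm (by
          rw [Multiset.map_map, Multiset.card_map]
          exact h)
        obtain ⟨t', rfl⟩ := exists_lift g t (by
          intro y hy
          have h1 : y ∈ s.map g := by
            rw [ht]
            exact Multiset.mem_add.2 (Or.inl hy)
          obtain ⟨a, -, ha⟩ := Multiset.mem_map.1 h1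
          exact ⟨a, ha⟩)
        refine ⟨t', Multiset.map_injective hginj ?_⟩
        rw [ht, Multiset.map_add, Multiset.map_map, Multiset.map_map]
        congr 1
        apply Multiset.map_congr rfl
        intro a _
        exact Prod.ext rfl ((E a.1).swap a.2) }
  obtain ⟨⟨F, I, _, v, a, d, hfr, hv⟩, htop⟩ := exists_frame_shape (ops := ops) H
    (by
      intro j
      obtain ⟨F, I, hI, v, a, d, hfr, hv⟩ := exists_frame (hHyp j) (B j) (E j) (hLC j)
        (hP j).lefschetzB
      refine ⟨F, I, hI, v, a, d, hfr.mono ?_, hv⟩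
      rintro _ _ ⟨l, z, hz, T, hT, rfl, rfl⟩
      let φ : Fin (r j) × Bool → Tok P r (P j) := fun p => ⟨⟨j, p⟩, 𝟙 _, by
        rw [Category.comp_id, Category.id_comp]⟩
      have hφ : ∀ p, xC (hHyp j) (B j) (E j) p = ev H (φ p) := by
        intro p
        apply Subtype.ext
        exact (W.map_id _ _).symm
      refine ⟨l, z, hz, T.map φ, ?_, ?_, ?_⟩
      · rw [Multiset.card_map, (hP j).dim]
        omega
      · rw [Multiset.map_map]
        congr 3
        apply Multiset.map_congr rfl
        intro p _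
        exact hφ p
      · rw [Multiset.map_map]
        congr 3
        apply Multiset.map_congr rfl
        intro p _
        exact hφ (sw p))
    (by
      intro j
      obtain ⟨z, hz, hz'⟩ := pow_alg (W := W) (hP j).div (P j).X.dim
      refine ⟨z, hz, ?_⟩
      rw [hz', (hP j).dim]
      exact (hHyp j).tr_top_ne) s
  exact hfr.hodge (fun z hz y y' h => tok_real H hq hF htop hdim z hz y y' h)
    fun z hz => adjoin_le hfr hv hz

/-- If the cohomology of the factors is generated by the second cohomology, the subalgebra is the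
whole cohomology of the product. -/
theorem inFactorTwo_all (hG : ∀ j, GeneratedByTwo W (P j).X) (s : Shape J)
    (x : W.H (s.obj ops P).X) : InFactorTwo W P s x := by
  induction s with
  | one j =>
    have h1 := hG j x
    refine Algebra.adjoin_mono ?_ h1
    intro y hy
    exact ⟨j, _, Shape.IsProj.one j, y, hy, (W.map_id _ _).symm⟩
  | mul s t ihs iht =>
    refine W.kunneth_induction (X := (s.obj ops P).X) (Y := (t.obj ops P).X)
      (p := fun x => InFactorTwo W P (s.mul t) x) (fun a b ha hb => add_mem ha hb) ?_ x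
    intro i j a _ b' _
    have h1 := adjoin_map (W.map (fst (s.obj ops P).X (t.obj ops P).X))
      (G := s.gens W P) (G' := (s.mul t).gens W P)
      (fun y hy => Algebra.subset_adjoin (gens_left hy)) (ihs a)
    have h2 := adjoin_map (W.map (snd (s.obj ops P).X (t.obj ops P).X))
      (G := t.gens W P) (G' := (s.mul t).gens W P)
      (fun y hy => Algebra.subset_adjoin (gens_right hy)) (iht b')
    exact mul_mem h1 h2

end fam

end Pool.Agent.Y103.Vp
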