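import Pool.Agent.Y103.Vp.Theta
import Pool.Agent.Y103.Vp.CP
import Pool.Agent.Y103.Vb.Theta2
import Pool.Agent.W552.AS

/-!
# The external products of conjugate eigenvectors
-/

set_option linter.unusedSectionVars false

open CategoryTheory AlgebraicGeometry Submodule

universe u v

namespace Pool.Agent.Y103.Vp

open Pool.Agent.H914 Pool.Agent.H914.VarClass Pool.Agent.H914.VarClass.Obj
  Pool.Agent.H914.WeilCohomology Pool.Agent.H281R3.HT Pool.Agent.W552 Pool.Agent.Y103
  Pool.Agent.Y103.Fj Pool.Agent.Y103.Vb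

variable {k : Type u} [Field k] {𝒱 : VarClass k} {ops : CycleOps 𝒱}
  {W : WeilCohomology.{u, v} ops} {X : 𝒱.Obj} {D : X.Cycles} {n : ℕ}
  {b : W.H X →ₗ[W.K] W.H X →ₗ[W.K] W.K} {c s : ℚ} {f : X ⟶ X} {q : ℕ}
  {ι : W.K ≃+* ℂ} {N r : ℕ} {e : Fin N → W.H X} {w : Fin N → ℚ} {x : Fin r × Bool → W.H X}
  {lam : Fin r × Bool → W.K}

/-- Algebraic classes, each one with itself. -/
def algRel (W : WeilCohomology.{u, v} ops) (Y : 𝒱.Obj) (x y : W.H Y) : Prop :=
  ∃ l, x ∈ algClasses W Y l ∧ y = x

/-- The external product of two eigenvectors. -/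
noncomputable def xx (W : WeilCohomology.{u, v} ops) {X : 𝒱.Obj} (y z : W.H X) : W.H (X.prod X) :=
  W.map (fst X X) y * W.map (snd X X) z

variable (h : Hyp W X D n b c s f q) (B : DivBasis W X D b N e w)
  (E : EigBasis ι b f q r x lam)

include h B E

/-- The classes of the powers of the Frobenius endomorphism. -/
lemma theta_alg (hB : LefschetzB W X D) (m : ℕ) :
    ∑ p, lam p ^ m • xx W (x (sw p)) (x p) ∈ algClasses W (X.prod X) 2 := by
  have hn1 := h.hn1
  have hcp := cp_pos hn1 h.H.pos h.hs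
  have hcpK : ((cp n c s : ℚ) : W.K) ≠ 0 := by exact_mod_cast hcp.ne'
  have hξ : W.cl X D ∈ algClasses W X 1 := ⟨D, h.hD, rfl⟩
  have hz' := exists_cyc h B E hB m
  rw [Fintype.sum_sum_type, Fintype.sum_option] at hz'
  have hFalg : ∀ {j : ℕ} {y : W.H X}, y ∈ algClasses W X j →
      ((W.map f).toLinearMap ^ m) y ∈ algClasses W X j := fun hy => Vb.alg_map hy m
  have h1 : W.map (fst X X) (gg D e x (Sum.inl none)) * W.map (snd X X)
      (((W.map f).toLinearMap ^ m) (gd D n c s e w x (Sum.inl none))) ∈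
        algClasses W (X.prod X) 2 := by
    change W.map (fst X X) (W.cl X D) * W.map (snd X X)
      (((W.map f).toLinearMap ^ m) (((c * s ^ n : ℚ) : W.K)⁻¹ • W.cl X D)) ∈ _
    rw [map_smul, ← Rat.cast_inv]
    exact alg_mul (Pool.Agent.H281R3.HT.alg_map _ hξ) (Pool.Agent.H281R3.HT.alg_map _ (alg_smul _ (hFalg hξ)))
  have h2 : ∑ l, W.map (fst X X) (gg D e x (Sum.inl (some l))) * W.map (snd X X)
      (((W.map f).toLinearMap ^ m) (gd D n c s e w x (Sum.inl (some l)))) ∈
        algClasses W (X.prod X) 2 := by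
    have h3 : ∀ S : Finset (Fin N), ∑ l ∈ S, W.map (fst X X) (gg D e x (Sum.inl (some l))) *
        W.map (snd X X) (((W.map f).toLinearMap ^ m) (gd D n c s e w x (Sum.inl (some l)))) ∈
          algClasses W (X.prod X) 2 := by
      intro S
      induction S using Finset.induction_on with
      | empty => rw [Finset.sum_empty]; exact alg_zero 2
      | insert l S hl ih =>
        rw [Finset.sum_insert hl]
        refine alg_add ?_ ih
        change W.map (fst X X) (e l) * W.map (snd X X)
          (((W.map f).toLinearMap ^ m) (((cp n c s * w l : ℚ) : W.K)⁻¹ • e l)) ∈ _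
        rw [map_smul, ← Rat.cast_inv]
        exact alg_mul (Pool.Agent.H281R3.HT.alg_map _ (B.alg l)) (Pool.Agent.H281R3.HT.alg_map _ (alg_smul _ (hFalg (B.alg l))))
    exact h3 _
  have h3 := alg_sub hz' (alg_add h1 h2)
  rw [add_sub_cancel_left] at h3
  have h4 := alg_smul (cp n c s * (-1 / 2)) h3
  have h5 : ((cp n c s * (-1 / 2) : ℚ) : W.K) • ∑ p, W.map (fst X X) (gg D e x (Sum.inr p)) *
      W.map (snd X X) (((W.map f).toLinearMap ^ m) (gd D n c s e w x (Sum.inr p))) =
      ∑ p, lam p ^ m • xx W (x (sw p)) (x p) := by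
    rw [Finset.smul_sum]
    refine Finset.sum_bij' (fun p _ => sw p) (fun p _ => sw p) (fun _ _ => Finset.mem_univ _)
      (fun _ _ => Finset.mem_univ _) (fun p _ => sw_sw p) (fun p _ => sw_sw p) ?_
    intro p _
    change ((cp n c s * (-1 / 2) : ℚ) : W.K) • (W.map (fst X X) (x p) *
      W.map (snd X X) (((W.map f).toLinearMap ^ m)
      ((((cp n c s : ℚ) : W.K) * (-1 / 2))⁻¹ • x (sw p)))) = _
    have h6 : ((cp n c s : ℚ) : W.K) * (-1 / 2) ≠ 0 := mul_ne_zero hcpK (by norm_num)
    rw [map_smul, pow_iter_eig (E.eig (sw p)), map_smul (W.map (snd X X)),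
      map_smul (W.map (snd X X)), mul_smul_comm, mul_smul_comm, smul_smul, sw_sw]
    have h7 : ((cp n c s * (-1 / 2) : ℚ) : W.K) = ((cp n c s : ℚ) : W.K) * (-1 / 2) := by
      push_cast; ring
    rw [h7, mul_inv_cancel₀ h6, one_smul]
    rfl
  rw [h5] at h4
  exact h4

/-- The external products of conjugate eigenvectors. -/
theorem pair_cp (hB : LefschetzB W X D) (p₀ : Fin r × Bool) :
    CP ι (algRel W (X.prod X)) (xx W (x (sw p₀)) (x p₀)) (xx W (x p₀) (x (sw p₀))) := by
  classical
  set v : Fin r × Bool → W.K := fun p => if p = p₀ then 1 else 0 with hv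
  set Q : Polynomial W.K := Lagrange.interpolate Finset.univ lam v with hQ
  have hQe : ∀ p, Q.eval (lam p) = v p := fun p =>
    Lagrange.eval_interpolate_at_node v E.inj.injOn (Finset.mem_univ p)
  have hQc : ∀ p, (Q.map (cj ι)).eval (lam p) = v (sw p) := by
    intro p
    have h2 : lam p = cj ι (lam (sw p)) := by
      rw [E.conj]
      exact congrArg lam (sw_sw p).symm
    have h3 := Polynomial.hom_eval₂ Q (RingHom.id W.K) (cj ι) (lam (sw p))
    rw [RingHom.comp_id, Polynomial.eval₂_id, hQe] at h3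
    have h4 : cj ι (v (sw p)) = v (sw p) := by
      rw [hv]
      beta_reduce
      split_ifs
      · rw [map_one]
      · rw [map_zero]
    rw [h2, Polynomial.eval_map, ← h3, h4]
  have hsum : ∀ P : Polynomial W.K, ∑ p, P.eval (lam p) • xx W (x (sw p)) (x p) =
      ∑ i ∈ Finset.range (P.natDegree + 1), P.coeff i • ∑ p, lam p ^ i • xx W (x (sw p)) (x p) := by
    intro P
    simp only [Finset.smul_sum, smul_smul]
    rw [Finset.sum_comm]
    apply Finset.sum_congr rfl
    intro p _
    rw [Polynomial.eval_eq_sum_range, Finset.sum_smul]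
  have h1 : ∑ p, Q.eval (lam p) • xx W (x (sw p)) (x p) = xx W (x (sw p₀)) (x p₀) := by
    simp only [hQe]
    rw [Finset.sum_eq_single p₀]
    · rw [hv]
      beta_reduce
      rw [if_pos rfl, one_smul]
    · intro p _ hp
      rw [hv]
      beta_reduce
      rw [if_neg hp, zero_smul]
    · intro h; exact absurd (Finset.mem_univ _) h
  have h2 : ∑ p, (Q.map (cj ι)).eval (lam p) • xx W (x (sw p)) (x p) =
      xx W (x p₀) (x (sw p₀)) := by
    simp only [hQc]
    rw [Finset.sum_eq_single (sw p₀)]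
    · rw [hv]
      beta_reduce
      rw [if_pos (sw_sw p₀), one_smul, sw_sw]
    · intro p _ hp
      rw [hv]
      beta_reduce
      rw [if_neg, zero_smul]
      rintro rfl
      exact hp (sw_sw p).symm
    · intro h; exact absurd (Finset.mem_univ _) h
  rw [← h1, ← h2, hsum, hsum, Polynomial.natDegree_map]
  apply CP.sum
  intro i _
  rw [Polynomial.coeff_map]
  exact CP.smul _ (CP.base ⟨2, theta_alg h B E hB i, rfl⟩)

end Pool.Agent.Y103.Vp
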