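import Mathlib

/-!
# Real structures with a positive definite real form
-/

namespace Pool.Agent.Y103.Vp

/-- The predicate `M` is stable under real linear combinations. -/
structure RSub {K : Type*} [Field K] (ρ : ℝ →+* K) {V : Type*} [AddCommGroup V] [Module K V]
    (M : V → Prop) : Prop where
  zero : M 0
  add : ∀ {x y}, M x → M y → M (x + y)
  smul : ∀ (q : ℝ) {x}, M x → M (ρ q • x)

namespace RSub

variable {K : Type*} [Field K] {ρ : ℝ →+* K} {V : Type*} [AddCommGroup V] [Module K V]
  {M : V → Prop} (h : RSub ρ M)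

include h

lemma neg {x : V} (hx : M x) : M (-x) := by
  have := h.smul (-1) hx
  simpa using this

lemma sub {x y : V} (hx : M x) (hy : M y) : M (x - y) := by
  rw [sub_eq_add_neg]; exact h.add hx (h.neg hy)

lemma sum {ι : Type*} (s : Finset ι) {f : ι → V} (hf : ∀ i ∈ s, M (f i)) : M (∑ i ∈ s, f i) := by
  classical
  induction s using Finset.induction_on with
  | empty => simpa using h.zero
  | insert a s ha ih =>
    rw [Finset.sum_insert ha]
    exact h.add (hf a (by simp)) (ih (fun i hi => hf i (by simp [hi])))

end RSub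

variable {K : Type*} [Field K] {ρ : ℝ →+* K} {V : Type*} [AddCommGroup V] [Module K V]
  [Module.Finite K V]

/-- A rational structure with a positive definite rational form has a finite orthogonal basis, and
the elements of its `K`-span whose products with it are rational belong to it. -/
theorem exists_rBasis {M : V → Prop} (hM : RSub ρ M) (β : V →ₗ[K] V →ₗ[K] K)
    (hrat : ∀ x y, M x → M y → ∃ q : ℝ, β x y = ρ q) (hsymm : ∀ x y, M x → M y → β x y = β y x)
    (hpos : ∀ x, M x → x ≠ 0 → ∃ q : ℝ, 0 < q ∧ β x x = ρ q) :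
    ∃ (N : ℕ) (e : Fin N → V) (w : Fin N → ℝ), (∀ k, M (e k)) ∧ (∀ k, 0 < w k) ∧
      (∀ k l, β (e k) (e l) = if k = l then ρ (w k) else 0) ∧
      Submodule.span K {y | M y} ≤ Submodule.span K (Set.range e) := by
  classical
  obtain ⟨S, hSA, hSspan, hSli⟩ := exists_linearIndependent K {v | M v}
  have hfin : S.Finite := hSli.setFinite
  have := hfin.fintype
  have hSc : ∀ i : S, M (i : V) := fun i => hSA i.2
  choose g hg using fun i k : S => hrat _ _ (hSc i) (hSc k)
  set c : (S → ℝ) → V := fun r => ∑ i : S, ρ (r i) • (i : V) with hc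
  have hcA : ∀ r, M (c r) := fun r => hM.sum _ (fun i _ => hM.smul _ (hSc i))
  have hc0 : ∀ r, c r = 0 → r = 0 := by
    intro r hr
    funext i
    have := Fintype.linearIndependent_iff.1 hSli (fun i => ρ (r i)) hr i
    exact (map_eq_zero_iff ρ ρ.injective).1 this
  set Bf : LinearMap.BilinForm ℝ (S → ℝ) := Matrix.toLinearMap₂' ℝ (Matrix.of g) with hBf
  have hB : ∀ r s : S → ℝ, β (c r) (c s) = ρ (Bf r s) := by
    intro r s
    rw [hBf, Matrix.toLinearMap₂'_apply, hc]
    beta_reduce
    rw [map_sum β, LinearMap.sum_apply, map_sum]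
    apply Finset.sum_congr rfl
    intro i _
    rw [map_sum, map_sum]
    apply Finset.sum_congr rfl
    intro k _
    rw [map_smul, map_smul, LinearMap.smul_apply, hg i k, smul_eq_mul, smul_eq_mul,
      Matrix.of_apply]
    simp only [smul_eq_mul, map_mul]
    ring
  have hsymm' : LinearMap.IsSymm Bf := by
    constructor
    intro r s
    have h1 := hB r s
    rw [hsymm _ _ (hcA r) (hcA s), hB] at h1
    simpa using (ρ.injective h1).symm
  have h2 : Invertible (2 : ℝ) := invertibleOfNonzero two_ne_zero
  obtain ⟨e, he⟩ := LinearMap.BilinForm.exists_orthogonal_basis hsymm'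
  have hpos' : ∀ l, ∃ q : ℝ, 0 < q ∧ β (c (e l)) (c (e l)) = ρ q := by
    intro l
    apply hpos _ (hcA _)
    intro h0
    exact e.ne_zero l (hc0 _ h0)
  choose q hq0 hq using hpos'
  have horth : ∀ k l, β (c (e k)) (c (e l)) = if k = l then ρ (q k) else 0 := by
    intro k l
    by_cases hkl : k = l
    · subst hkl; rw [if_pos rfl]; exact hq k
    · rw [if_neg hkl]
      have h3 := he hkl
      change Bf (e k) (e l) = 0 at h3
      rw [hB, h3, map_zero]
  refine ⟨_, fun l => c (e l), q, fun l => hcA _, hq0, horth, ?_⟩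
  · rw [← hSspan]
    apply Submodule.span_le.2
    intro y hy
    have h3 : y = c (Pi.single (⟨y, hy⟩ : S) 1) := by
      rw [hc]
      beta_reduce
      rw [Finset.sum_eq_single (⟨y, hy⟩ : S)]
      · rw [Pi.single_eq_same, map_one, one_smul]
      · intro i _ hi
        rw [Pi.single_eq_of_ne hi, map_zero, zero_smul]
      · intro h0; exact absurd (Finset.mem_univ _) h0
    have h4 : ∀ r : S → ℝ, c r ∈ Submodule.span K (Set.range fun l => c (e l)) := by
      intro r
      have h5 : c r = ∑ l, ρ (e.repr r l) • c (e l) := by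
        conv_lhs => rw [← e.sum_repr r]
        rw [hc]
        beta_reduce
        simp only [Finset.smul_sum]
        rw [Finset.sum_comm]
        apply Finset.sum_congr rfl
        intro i _
        rw [Finset.sum_apply, map_sum, Finset.sum_smul]
        apply Finset.sum_congr rfl
        intro l _
        rw [Pi.smul_apply, smul_eq_mul, map_mul, mul_smul]
      rw [h5]
      exact Submodule.sum_mem _ (fun l _ => Submodule.smul_mem _ _
        (Submodule.subset_span ⟨l, rfl⟩))
    rw [h3]
    exact h4 _

end Pool.Agent.Y103.Vp
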