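import Pool.Agent.Y103.Vp.CP

/-!
# The real elements of an algebra with a Fujiki relation
-/

set_option linter.unusedSectionVars false

open Submodule

namespace Pool.Agent.Y103.Vp

open Pool.Agent.Y103.Vb Pool.Agent.Y103.Fj

variable {K : Type*} [Field K] [CharZero K] (ι : K ≃+* ℂ) {A : Type*} [CommRing A] [Algebra K A]
  {N r : ℕ}

/-- The values of the real homogeneous polynomials of degree `j` at the real basis. -/
def RR (g : Idx N r → A) (j : ℕ) (y : A) : Prop :=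
  letI := realK ι
  letI : Algebra ℝ A := Algebra.compHom A (algebraMap ℝ K)
  ∃ f : MvPolynomial (Idx N r) ℝ, Hom j f ∧ y = MvPolynomial.aeval (rb ι g) f

/-- The embedding of the real numbers. -/
noncomputable def rho : ℝ →+* K := (ι.symm : ℂ →+* K).comp (algebraMap ℝ ℂ)

lemma rho_apply (a : ℝ) : rho ι a = ι.symm (a : ℂ) := rfl

variable {ι} {g : Idx N r → A}

lemma RR.zero (j : ℕ) : RR ι g j 0 := by
  let _ := realK ι
  let _ : Algebra ℝ A := Algebra.compHom A (algebraMap ℝ K)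
  refine ⟨0, ?_, by rw [map_zero]⟩
  intro α hα
  rw [MvPolynomial.coeff_zero] at hα
  exact absurd rfl hα

lemma RR.add {j : ℕ} {x y : A} (hx : RR ι g j x) (hy : RR ι g j y) : RR ι g j (x + y) := by
  let _ := realK ι
  let _ : Algebra ℝ A := Algebra.compHom A (algebraMap ℝ K)
  obtain ⟨f, hf, rfl⟩ := hx
  obtain ⟨f', hf', rfl⟩ := hy
  refine ⟨f + f', ?_, by rw [map_add]⟩
  intro α hα
  rw [MvPolynomial.coeff_add] at hα
  by_cases h : MvPolynomial.coeff α f = 0
  · rw [h, zero_add] at hα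
    exact hf' α hα
  · exact hf α h

lemma RR.smul {j : ℕ} (a : ℝ) {x : A} (hx : RR ι g j x) : RR ι g j (rho ι a • x) := by
  let _ := realK ι
  let _ : Algebra ℝ A := Algebra.compHom A (algebraMap ℝ K)
  have hT : IsScalarTower ℝ K A := IsScalarTower.of_algebraMap_eq (fun _ => rfl)
  obtain ⟨f, hf, rfl⟩ := hx
  refine ⟨a • f, ?_, ?_⟩
  · intro α hα
    rw [MvPolynomial.coeff_smul, smul_eq_mul] at hα
    exact hf α (right_ne_zero_of_mul hα)
  · rw [map_smul, ← algebraMap_smul K a]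
    rfl

lemma RR.mul {i j : ℕ} {x y : A} (hx : RR ι g i x) (hy : RR ι g j y) : RR ι g (i + j) (x * y) := by
  let _ := realK ι
  let _ : Algebra ℝ A := Algebra.compHom A (algebraMap ℝ K)
  obtain ⟨f, hf, rfl⟩ := hx
  obtain ⟨f', hf', rfl⟩ := hy
  exact ⟨f * f', hf.mul hf', by rw [map_mul]⟩

lemma RR.one : RR ι g 0 1 := by
  let _ := realK ι
  let _ : Algebra ℝ A := Algebra.compHom A (algebraMap ℝ K)
  refine ⟨1, ?_, by rw [map_one]⟩
  intro α hα
  classical
  rw [MvPolynomial.coeff_one] at hα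
  have h : 0 = α := by
    by_contra h
    rw [if_neg h] at hα
    exact hα rfl
  rw [← h]
  simp

lemma RR.rb (a : Idx N r) : RR ι g 1 (rb ι g a) := by
  let _ := realK ι
  let _ : Algebra ℝ A := Algebra.compHom A (algebraMap ℝ K)
  exact ⟨MvPolynomial.X a, hom_X (F := ℝ) a, by rw [MvPolynomial.aeval_X]⟩

lemma RR.xi : RR ι g 1 (g (Sum.inl none)) := RR.rb (Sum.inl none)

lemma RR.xi_pow (a : ℕ) : RR ι g a (g (Sum.inl none) ^ a) := by
  induction a with
  | zero => rw [pow_zero]; exact RR.one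
  | succ a ih => rw [pow_succ]; exact ih.mul RR.xi

lemma RR.mem_Pr {j : ℕ} {x : A} (hx : RR ι g j x) : x ∈ Pr K g j := by
  obtain ⟨f, hf, rfl⟩ := hx
  exact aeval_mem_Pr f hf

lemma Pr_le {j : ℕ} {x : A} (hx : x ∈ Pr K g j) : x ∈ span K {y | RR ι g j y} :=
  Pr_mem_aeval hx

section E

variable {n : ℕ} {tr : A →ₗ[K] K} {b : A →ₗ[K] A →ₗ[K] K}
  {w : Option (Fin N) → ℝ} {c : ℝ} (E : EigData ι n tr b g w c)

include E

lemma RR.trace {x : A} (hx : RR ι g (2 * n) x) : ∃ a : ℝ, tr x = rho ι a := by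
  let _ := realK ι
  let _ : Algebra ℝ A := Algebra.compHom A (algebraMap ℝ K)
  have hT : IsScalarTower ℝ K A := IsScalarTower.of_algebraMap_eq (fun _ => rfl)
  obtain ⟨f, hf, rfl⟩ := hx
  exact ⟨_, E.isFujiki.tr_eq hf⟩

lemma RR.rat {j : ℕ} (hj : j ≤ n) {x : A} (hx : x ∈ Pr K g j)
    (h : ∀ y, RR ι g j y → ∃ a : ℝ, tr (x * y * g (Sum.inl none) ^ (2 * n - 2 * j)) = rho ι a) :
    RR ι g j x := by
  let _ := realK ι
  let _ : Algebra ℝ A := Algebra.compHom A (algebraMap ℝ K)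
  have hT : IsScalarTower ℝ K A := IsScalarTower.of_algebraMap_eq (fun _ => rfl)
  exact E.isFujiki.rat hj (Pr_mem_aeval hx) fun f hf => h _ ⟨f, hf, rfl⟩

lemma RR.pos {j : ℕ} (hj : j ≤ n) {x : A} (hx : RR ι g j x)
    (hp : ∀ j', j = j' + 1 → ∀ y, RR ι g j' y →
      tr (x * (g (Sum.inl none) * y) * g (Sum.inl none) ^ (2 * n - 2 * j)) = 0) (hx0 : x ≠ 0) :
    ∃ a : ℝ, 0 < a ∧ (-1) ^ j * tr (x * x * g (Sum.inl none) ^ (2 * n - 2 * j)) = rho ι a := by
  let _ := realK ι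
  let _ : Algebra ℝ A := Algebra.compHom A (algebraMap ℝ K)
  have hT : IsScalarTower ℝ K A := IsScalarTower.of_algebraMap_eq (fun _ => rfl)
  refine E.isFujiki.prim_pos hj (Pr_mem_aeval hx.mem_Pr) ?_ ?_ hx0
  · intro f hf
    have h1 : RR ι g j (MvPolynomial.aeval (Vb.rb ι g) f) := ⟨f, hf, rfl⟩
    have h2 := (hx.mul h1).mul (RR.xi_pow (ι := ι) (g := g) (2 * n - 2 * j))
    rw [show j + j + (2 * n - 2 * j) = 2 * n by omega] at h2
    exact h2.trace E
  · intro j' hj' f hf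
    exact hp j' hj' _ ⟨f, hf, rfl⟩

end E

/-- Pairs of conjugate monomials. -/
def mpRel (g : Idx N r → A) (j : ℕ) (x y : A) : Prop :=
  ∃ s : Multiset (Idx N r), s.card = j ∧ x = mp g s ∧ y = mp g (s.map swp)

omit [CharZero K] in
lemma cp_rb (a : Idx N r) : CP ι (mpRel g 1) (rb ι g a) (rb ι g a) := by
  have hb : ∀ p : Idx N r, CP ι (mpRel g 1) (g p) (g (swp p)) := fun p =>
    CP.base ⟨{p}, by simp, by simp [mp], by simp [mp]⟩
  rcases a with l | ⟨i, _ | _⟩
  · exact hb (Sum.inl l)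
  · have h1 := (hb (Sum.inr (i, false))).add (hb (Sum.inr (i, true)))
    change CP ι (mpRel g 1) (g (Sum.inr (i, false)) + g (Sum.inr (i, true)))
      (g (Sum.inr (i, true)) + g (Sum.inr (i, false))) at h1
    rw [add_comm (g (Sum.inr (i, true)))] at h1
    exact h1
  · have h1 := CP.smul (im ι) ((hb (Sum.inr (i, false))).add ((hb (Sum.inr (i, true))).smul (-1)))
    rw [cj_im, map_neg, map_one, neg_one_smul, neg_one_smul] at h1
    change CP ι (mpRel g 1) (im ι • (g (Sum.inr (i, false)) + -g (Sum.inr (i, true))))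
      (-im ι • (g (Sum.inr (i, true)) + -g (Sum.inr (i, false)))) at h1
    have e1 : -im ι • (g (Sum.inr (i, true)) + -g (Sum.inr (i, false))) =
        im ι • (g (Sum.inr (i, false)) + -g (Sum.inr (i, true))) := by
      rw [neg_smul, ← smul_neg]
      congr 1
      abel
    rw [e1, ← sub_eq_add_neg] at h1
    exact h1

omit [CharZero K] in
lemma cp_mp_rb (s : Multiset (Idx N r)) :
    CP ι (mpRel g s.card) (mp (rb ι g) s) (mp (rb ι g) s) := by
  induction s using Multiset.induction_on with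
  | empty =>
    exact CP.base ⟨0, rfl, by rw [mp_zero, mp_zero], by rw [Multiset.map_zero, mp_zero, mp_zero]⟩
  | cons a s ih =>
    rw [mp_cons, Multiset.card_cons]
    refine (cp_rb a).bilin ih (LinearMap.mul K A) ?_
    rintro _ _ _ _ ⟨t, ht, rfl, rfl⟩ ⟨t', ht', rfl, rfl⟩
    exact CP.base ⟨t + t', by rw [Multiset.card_add, ht, ht', add_comm],
      (mp_add _ _).symm, by rw [Multiset.map_add, mp_add]; rfl⟩

lemma RR.cp {j : ℕ} {x : A} (hx : RR ι g j x) : CP ι (mpRel g j) x x := by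
  let _ := realK ι
  let _ : Algebra ℝ A := Algebra.compHom A (algebraMap ℝ K)
  have hT : IsScalarTower ℝ K A := IsScalarTower.of_algebraMap_eq (fun _ => rfl)
  obtain ⟨f, hf, rfl⟩ := hx
  rw [aeval_eq_sum]
  apply CP.sum
  intro α hα
  have h1 := cp_mp_rb (ι := ι) (g := g) (Finsupp.toMultiset α)
  rw [card_toMultiset', hf α (MvPolynomial.mem_support_iff.1 hα)] at h1
  rw [← algebraMap_smul K]
  exact CP.smul_real (cj_real ι _) h1

end Pool.Agent.Y103.Vp
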