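import Pool.Agent.Y103.Vp.RR
import Pool.Agent.Y103.Vp.RPart
import Pool.Agent.Y103.Vp.RBasis
import Pool.Agent.Y103.Vp.Frm
import Pool.Agent.Y103.Vp.Theta
import Pool.Agent.Y103.Vb.Main
import Pool.Agent.W552.Fr

/-!
# The frame of a single variety
-/

set_option linter.unusedSectionVars false

open CategoryTheory AlgebraicGeometry Submodule

universe u v

namespace Pool.Agent.Y103.Vp

open Pool.Agent.H914 Pool.Agent.H914.VarClass Pool.Agent.H914.VarClass.Obj
  Pool.Agent.H914.WeilCohomology Pool.Agent.H281R3.HT Pool.Agent.W552 Pool.Agent.Y103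
  Pool.Agent.Y103.Fj Pool.Agent.Y103.Vb

variable {k : Type u} [Field k] {𝒱 : VarClass k} {ops : CycleOps 𝒱}
  {W : WeilCohomology.{u, v} ops} {X : 𝒱.Obj} {D : X.Cycles} {n : ℕ}
  {b : W.H X →ₗ[W.K] W.H X →ₗ[W.K] W.K} {c s : ℚ} {f : X ⟶ X} {q : ℕ}
  {ι : W.K ≃+* ℂ} {N r : ℕ} {e : Fin N → W.H X} {w : Fin N → ℚ} {x : Fin r × Bool → W.H X}
  {lam : Fin r × Bool → W.K}

section Data

variable (h : Hyp W X D n b c s f q) (B : DivBasis W X D b N e w)
  (E : EigBasis ι b f q r x lam)

/-- The basis as a family of central elements. -/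
noncomputable def gC (h : Hyp W X D n b c s f q) (B : DivBasis W X D b N e w)
    (E : EigBasis ι b f q r x lam) (a : Idx N r) : Cen W X :=
  ⟨gg D e x a, gr2_center (gg_mem h B E a)⟩

lemma range_gC_gr {y : Cen W X} (hy : y ∈ span W.K (Set.range (gC h B E))) :
    (y : W.H X) ∈ W.gr X 2 := by
  induction hy using span_induction with
  | mem y hy =>
    obtain ⟨a, rfl⟩ := hy
    exact gg_mem h B E a
  | zero => exact zero_mem _
  | add x y _ _ hx hy => exact add_mem hx hy
  | smul a x _ hx => exact smul_mem _ _ hx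

/-- The data of the abstract theorem. -/
theorem eigData : EigData ι n (trZ W X) (bC b) (gC h B E) (wR s w) (c : ℝ) where
  wpos := by
    have := h.hs
    change (0 : ℝ) < (s : ℝ)
    exact_mod_cast this
  wneg := fun l => by
    have := B.neg l
    change (w l : ℝ) < 0
    exact_mod_cast this
  cpos := by
    have := h.H.pos
    exact_mod_cast this
  dd := by
    rintro (_ | l) (_ | l')
    · rw [if_pos rfl]
      change b (W.cl X D) (W.cl X D) = ι.symm (((s : ℝ)) : ℂ)
      rw [symm_rat, h.hb]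
    · rw [if_neg (by simp)]
      exact B.xi l'
    · rw [if_neg (by simp)]
      change b (e l) (W.cl X D) = 0
      rw [h.H.symm _ (alg_gr (B.alg l)) _ h.xi_mem, B.xi]
    · change b (e l) (e l') = _
      rw [B.orth]
      simp only [Option.some.injEq]
      split_ifs
      · exact (symm_rat ι (w l)).symm
      · rfl
  dx := by
    rintro (_ | l) p
    · exact xi_x h E p
    · change b (e l) (x p) = 0
      rw [h.H.symm _ (alg_gr (B.alg l)) _ (E.mem p).1]
      exact (E.mem p).2 _ (B.alg l)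
  xd := by
    rintro (_ | l) p
    · exact (E.mem p).2 _ ⟨D, h.hD, rfl⟩
    · exact (E.mem p).2 _ (B.alg l)
  xx := E.form
  rel := by
    intro y hy
    have h1 := h.H.rel _ (range_gC_gr h B E hy)
    rw [symm_rat]
    exact h1

lemma gC_mul_mem {j : ℕ} (p : Idx N r) {y : Cen W X} (hy : y ∈ Pr W.K (gC h B E) j) :
    gC h B E p * y ∈ Pr W.K (gC h B E) (1 + j) := by
  induction hy using span_induction with
  | mem y hy =>
    obtain ⟨t, ht, rfl⟩ := hy
    exact subset_span ⟨p ::ₘ t, by rw [Multiset.card_cons, ht, add_comm],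
      (mp_cons p t).symm⟩
  | zero => rw [mul_zero]; exact zero_mem _
  | add x y _ _ hx hy => rw [mul_add]; exact add_mem hx hy
  | smul c x _ hx => rw [mul_smul_comm]; exact smul_mem _ _ hx

/-- Elements of the algebra generated by the second cohomology. -/
lemma lift_gen {j : ℕ} {y : W.H X}
    (hy : y ∈ genRing W.K (fun _ => (W.gr X 2 : Set (W.H X))) 1 j) :
    ∃ a ∈ Pr W.K (gC h B E) j, ((a : Cen W X) : W.H X) = y := by
  induction hy using span_induction with
  | mem y hy =>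
    induction hy with
    | one => exact ⟨1, subset_span ⟨0, rfl, mp_zero.symm⟩, rfl⟩
    | @mul i j a b' h1 h2 ha _ ih =>
      obtain rfl : i = 1 := le_antisymm h2 h1
      obtain ⟨y, hy, rfl⟩ := ih
      have ha' : a ∈ W.gr X 2 := ha
      have key : ∀ a ∈ span W.K (Set.range (gg D e x)), ∃ a' ∈ Pr W.K (gC h B E) (1 + j),
          ((a' : Cen W X) : W.H X) = a * y := by
        intro a ha
        induction ha using span_induction with
        | mem a ha =>
          obtain ⟨p, rfl⟩ := ha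
          exact ⟨gC h B E p * y, gC_mul_mem h B E p hy, rfl⟩
        | zero => exact ⟨0, zero_mem _, by rw [zero_mul]; rfl⟩
        | add a b _ _ ha hb =>
          obtain ⟨a', ha', h1⟩ := ha
          obtain ⟨b', hb', h2⟩ := hb
          exact ⟨a' + b', add_mem ha' hb', by
            rw [add_mul, ← h1, ← h2]; rfl⟩
        | smul c a _ ha =>
          obtain ⟨a', ha', h1⟩ := ha
          exact ⟨c • a', smul_mem _ _ ha', by rw [smul_mul_assoc, ← h1]; rfl⟩
      exact key a (span_gg h B E ha')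
  | zero => exact ⟨0, zero_mem _, rfl⟩
  | add a b _ _ ha hb =>
    obtain ⟨a', ha', rfl⟩ := ha
    obtain ⟨b', hb', rfl⟩ := hb
    exact ⟨a' + b', add_mem ha' hb', rfl⟩
  | smul c a _ ha =>
    obtain ⟨a', ha', rfl⟩ := ha
    exact ⟨c • a', smul_mem _ _ ha', rfl⟩

lemma gC_gen (a : Idx N r) : (gC h B E a : W.H X) ∈ W.gr X 2 := gg_mem h B E a

/-- The products of basis elements are in the algebra generated by the second cohomology. -/
lemma Pr_gen {j : ℕ} {y : Cen W X} (hy : y ∈ Pr W.K (gC h B E) j) :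
    (y : W.H X) ∈ genRing W.K (fun _ => (W.gr X 2 : Set (W.H X))) 1 j := by
  induction hy using span_induction with
  | mem y hy =>
    obtain ⟨t, rfl, rfl⟩ := hy
    apply subset_span
    induction t using Multiset.induction_on with
    | empty => rw [mp_zero]; exact IsMonomial.one
    | cons a t ih =>
      rw [mp_cons, Multiset.card_cons, add_comm]
      exact IsMonomial.mul le_rfl le_rfl (gC_gen h B E a) ih
  | zero => exact zero_mem _
  | add a b _ _ ha hb => exact add_mem ha hb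
  | smul c a _ ha => exact smul_mem _ _ ha

/-- The degree. -/
lemma gen_gr {j : ℕ} {y : W.H X}
    (hy : y ∈ genRing W.K (fun _ => (W.gr X 2 : Set (W.H X))) 1 j) : y ∈ W.gr X (2 * j) := by
  induction hy using span_induction with
  | mem y hy =>
    induction hy with
    | one => exact W.one_mem X
    | @mul i j a b' h1 h2 ha _ ih =>
      obtain rfl : i = 1 := le_antisymm h2 h1
      have := W.mul_mem (show a ∈ W.gr X 2 from ha) ih
      rwa [show 2 + 2 * j = 2 * (1 + j) by ring] at this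
  | zero => exact zero_mem _
  | add a b _ _ ha hb => exact add_mem ha hb
  | smul c a _ ha => exact smul_mem _ _ ha

/-- The real elements of degree `l`. -/
def CC (h : Hyp W X D n b c s f q) (B : DivBasis W X D b N e w)
    (E : EigBasis ι b f q r x lam) (l : ℕ) : Set (W.H X) :=
  {y | ∃ z : Cen W X, RR ι (gC h B E) l z ∧ (z : W.H X) = y}

lemma CC_gr {l : ℕ} {y : W.H X} (hy : y ∈ CC h B E l) : y ∈ W.gr X (2 * l) := by
  obtain ⟨z, hz, rfl⟩ := hy
  exact gen_gr (Pr_gen h B E hz.mem_Pr)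

lemma xi_coe (a : ℕ) : (((gC h B E (Sum.inl none)) ^ a : Cen W X) : W.H X) = W.cl X D ^ a := rfl

/-- The real Lefschetz structure. -/
theorem rPart (hLC : LefschetzOnTwo W X D n) :
    RPart (rho ι) (W.gr X) X.dim (LinearMap.mulLeft W.K (W.cl X D)) (bil W X) (CC h B E) where
  sub l c hc := CC_gr h B E hc
  zero l := ⟨0, RR.zero l, rfl⟩
  add l := by
    rintro _ ⟨z, hz, rfl⟩ _ ⟨z', hz', rfl⟩
    exact ⟨z + z', hz.add hz', rfl⟩
  smul l a := by
    rintro _ ⟨z, hz, rfl⟩
    exact ⟨rho ι a • z, hz.smul a, rfl⟩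
  map_L l := by
    rintro _ ⟨z, hz, rfl⟩
    refine ⟨gC h B E (Sum.inl none) * z, ?_, rfl⟩
    rw [add_comm]
    exact RR.xi.mul hz
  rat l l' := by
    rintro _ ⟨z, hz, rfl⟩ _ ⟨z', hz', rfl⟩
    rw [bil_apply]
    by_cases hl : l + l' = 2 * n
    · have h1 := hz.mul hz'
      rw [hl] at h1
      exact h1.trace (eigData h B E)
    · refine ⟨0, ?_⟩
      rw [map_zero]
      apply W.tr_eq_zero (W.mul_mem (CC_gr h B E ⟨z, hz, rfl⟩) (CC_gr h B E ⟨z', hz', rfl⟩))
      rw [h.hn]
      omega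
  hl l hl := by
    rintro _ ⟨z, hz, rfl⟩
    rw [h.hn] at hz hl ⊢
    have hln : l ≤ n := by omega
    obtain ⟨y, hy, hzy⟩ := hLC l hln _ (Pr_gen h B E hz.mem_Pr)
    obtain ⟨y', hy', rfl⟩ := lift_gen h B E hy
    refine ⟨_, ⟨y', ?_, rfl⟩, ?_⟩
    · apply RR.rat (eigData h B E) hln hy'
      intro u hu
      have h1 := hz.mul hu
      rw [show 2 * n - l + l = 2 * n by omega] at h1
      obtain ⟨a, ha⟩ := h1.trace (eigData h B E)
      refine ⟨a, ?_⟩
      rw [← ha, trZ_apply, trZ_apply]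
      congr 1
      change ((y' : W.H X) * (u : W.H X)) * W.cl X D ^ (2 * n - 2 * l) = (z : W.H X) * (u : W.H X)
      rw [hzy, ← alg_even_comm (pow_alg (W := W) h.hD (2 * n - 2 * l)), ← mul_assoc]
    · rw [mulLeft_pow_apply']
      exact hzy.symm
  pos l hl := by
    rintro _ ⟨z, hz, rfl⟩ hp h0
    rw [h.hn] at hl hp ⊢
    rw [mulLeft_pow_apply'] at hp
    have hln : l ≤ n := by omega
    obtain ⟨a, ha, h1⟩ := RR.pos (eigData h B E) hln hz (by
      intro j' hj' y hy
      rw [trZ_apply]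
      change W.tr X ((z : W.H X) * (W.cl X D * (y : W.H X)) * W.cl X D ^ (2 * n - 2 * l)) = 0
      have h3 : W.cl X D * (y : W.H X) * W.cl X D ^ (2 * n - 2 * l) =
          W.cl X D ^ (2 * n - 2 * l + 1) * (y : W.H X) := by
        rw [mul_assoc, ← alg_even_comm (pow_alg (W := W) h.hD (2 * n - 2 * l)), ← mul_assoc,
          ← pow_succ']
      rw [mul_assoc, h3, ← mul_assoc, ← alg_even_comm (pow_alg (W := W) h.hD
        (2 * n - 2 * l + 1)), hp, zero_mul, map_zero]) (by
      rintro rfl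
      exact h0 rfl)
    rw [trZ_apply] at h1
    change (-1) ^ l * W.tr X ((z : W.H X) * (z : W.H X) * W.cl X D ^ (2 * n - 2 * l)) = _ at h1
    have e2 : (-1 : W.K) ^ l * (-1) ^ l = 1 := by rw [← mul_pow]; simp
    refine ⟨(-1) ^ l * a, ?_, ?_⟩
    · rw [bil_apply, mulLeft_pow_apply', map_mul (rho ι), map_pow, map_neg, map_one, ← h1,
        ← mul_assoc ((-1 : W.K) ^ l), e2, one_mul, mul_assoc (z : W.H X),
        ← alg_even_comm (pow_alg (W := W) h.hD (2 * n - 2 * l))]
    · rw [← mul_assoc, ← mul_pow]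
      simpa using ha
  self a a' := by
    rw [bil_apply, bil_apply, LinearMap.mulLeft_apply, LinearMap.mulLeft_apply,
      alg_even_comm (⟨D, h.hD, rfl⟩ : W.cl X D ∈ algClasses W X 1) a, mul_assoc]
  deg i j a ha a' ha' hij := W.tr_eq_zero (W.mul_mem ha ha') hij
  symm l a ha a' := by
    rw [bil_apply, bil_apply, W.even_comm ha]

/-- Pairs of conjugate products of eigenvectors. -/
def xRel (W : WeilCohomology.{u, v} ops) {X : 𝒱.Obj} (n : ℕ) {A : Type} (y : A → Cen W X)
    (σ : A → A) (a a' : W.H X) : Prop :=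
  ∃ (l : ℕ) (z : W.H X), z ∈ algClasses W X l ∧ ∃ T : Multiset A, T.card ≤ n ∧
    a = z * ((T.map y).prod : Cen W X) ∧ a' = z * ((T.map (y ∘ σ)).prod : Cen W X)

/-- The eigenvectors. -/
noncomputable def xC (h : Hyp W X D n b c s f q) (B : DivBasis W X D b N e w)
    (E : EigBasis ι b f q r x lam) (p : Fin r × Bool) : Cen W X := gC h B E (Sum.inr p)

lemma mp_inl_alg (s₁ : Multiset (Option (Fin N))) :
    ((mp (gC h B E) (s₁.map Sum.inl) : Cen W X) : W.H X) ∈ algClasses W X s₁.card := by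
  induction s₁ using Multiset.induction_on with
  | empty => rw [Multiset.map_zero, mp_zero]; exact alg_one
  | cons a t ih =>
    rw [Multiset.map_cons, mp_cons, Multiset.card_cons, add_comm]
    refine alg_mul ?_ ih
    rcases a with _ | l
    · exact ⟨D, h.hD, rfl⟩
    · exact B.alg l

lemma mpRel_xRel {j : ℕ} (hj : j ≤ n) {y y' : Cen W X} (hy : mpRel (gC h B E) j y y') :
    xRel W n (xC h B E) sw (y : W.H X) (y' : W.H X) := by
  obtain ⟨s, hs, rfl, rfl⟩ := hy
  obtain ⟨s₁, s₂, rfl⟩ := exists_split s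
  rw [Multiset.card_add, Multiset.card_map, Multiset.card_map] at hs
  refine ⟨_, _, mp_inl_alg h B E s₁, s₂, by omega, ?_, ?_⟩
  · rw [mp_add]
    have e2 : mp (gC h B E) (s₂.map Sum.inr) = (s₂.map (xC h B E)).prod := by
      rw [mp, Multiset.map_map]
      rfl
    rw [e2]
    rfl
  · rw [Multiset.map_add, mp_add]
    have e1 : (s₁.map Sum.inl : Multiset (Idx N r)).map swp = s₁.map Sum.inl := by
      rw [Multiset.map_map]; rfl
    have e2 : mp (gC h B E) ((s₂.map Sum.inr).map swp) = (s₂.map (xC h B E ∘ sw)).prod := by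
      rw [mp, Multiset.map_map, Multiset.map_map]
      rfl
    rw [e1, e2]
    rfl

/-- Real elements of degree at most the middle degree. -/
lemma CC_cp_low {l : ℕ} (hl : l ≤ n) {y : W.H X} (hy : y ∈ CC h B E l) :
    CP ι (xRel W n (xC h B E) sw) y y := by
  obtain ⟨z, hz, rfl⟩ := hy
  exact hz.cp.map (Cen W X).val.toLinearMap fun x y h' => CP.base (mpRel_xRel h B E hl h')

lemma CC_cp (hLC : LefschetzOnTwo W X D n) {l : ℕ} {y : W.H X} (hy : y ∈ CC h B E l) :
    CP ι (xRel W n (xC h B E) sw) y y := by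
  by_cases hl : l ≤ n
  · exact CC_cp_low h B E hl hy
  by_cases hl2 : l ≤ 2 * n
  · obtain ⟨y', hy', rfl⟩ := (rPart h B E hLC).hl (2 * n - l) (by rw [h.hn]; omega) y (by
      rw [h.hn, show 2 * n - (2 * n - l) = l by omega]
      exact hy)
    refine (CC_cp_low h B E (by omega) hy').map _ fun x y hxy => CP.base ?_
    obtain ⟨j, z, hz, T, hT, rfl, rfl⟩ := hxy
    refine ⟨_, _, alg_mul (pow_alg (W := W) h.hD (X.dim - 2 * (2 * n - l))) hz, T, hT, ?_, ?_⟩
    · rw [mulLeft_pow_apply', mul_assoc]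
    · rw [mulLeft_pow_apply', mul_assoc]
  · have h1 := CC_gr h B E hy
    rw [W.gr_eq_bot X (2 * l) (by rw [h.hn]; omega)] at h1
    rw [(mem_bot _).1 h1]
    exact CP.zero

/-- **The frame of a single variety.** -/
theorem exists_frame (hLC : LefschetzOnTwo W X D n) (hB : LefschetzB W X D) :
    ∃ (F : Module.End W.K (W.H X)) (I : Type) (_ : Fintype I) (v : I → W.H X) (a : I → ℕ)
      (d : I → ℝ), RFrm W ι X D F v a d (xRel W n (xC h B E) sw) ∧
        ∀ y ∈ W.gr X 2, y ∈ span W.K (Set.range v) := by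
  classical
  obtain ⟨F, hF, -⟩ := exists_fr h.hD h.hHL hB
  have hC := rPart h B E hLC
  have hw1 := wey_e hF.sl2
  have hlow : ∀ i ≤ X.dim, ∀ a ∈ W.gr X i,
      ((LinearMap.mulLeft W.K (W.cl X D)) ^ (X.dim - i + 1)) a = 0 → F a = 0 := by
    intro i hi a ha h0
    refine hF.sl2.f_eq_zero ?_ h0
    rw [Fr.wt_gr ha, Nat.cast_sub hi]
    congr 1
    ring
  have hLh : IsHom (W.gr X) 2 (LinearMap.mulLeft W.K (W.cl X D)) := by
    simpa using rop_opAlg.hom (rop_mulLeft (W := W) h.hD)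
  have hw3 : ∀ (m : ℕ) (v : W.H X), F v = 0 → wt (W.isInternal X) X.dim v = -(m : W.K) • v →
      wop W X D F v = ((m.factorial : W.K)⁻¹) • ((LinearMap.mulLeft W.K (W.cl X D)) ^ m) v :=
    fun m v h1 h2 => wey_lowest hF.sl2 h1 h2
  have hH : ∀ i, ∀ a ∈ W.gr X i, wt (W.isInternal X) X.dim a = ((i : W.K) - X.dim) • a :=
    fun i a ha => Fr.wt_gr ha
  set β : ℕ → W.H X →ₗ[W.K] W.H X →ₗ[W.K] W.K := fun l =>
    (-1 : W.K) ^ l • (bil W X).compl₂ (wop W X D F) with hβ
  have hβa : ∀ l y y', β l y y' = (-1 : W.K) ^ l * W.tr X (y * wop W X D F y') := fun l y y' => rfl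
  have hb : ∀ l : Fin (2 * n + 1), ∃ (M : ℕ) (e : Fin M → W.H X) (w : Fin M → ℝ),
      (∀ k, e k ∈ CC h B E l) ∧ (∀ k, 0 < w k) ∧
      (∀ k k', β l (e k) (e k') = if k = k' then rho ι (w k) else 0) ∧
      span W.K {y | y ∈ CC h B E l} ≤ span W.K (Set.range e) := by
    intro l
    have hl : (l : ℕ) ≤ X.dim := by
      have := l.2
      rw [h.hn]
      omega
    refine exists_rBasis (M := fun y => y ∈ CC h B E l) ⟨hC.zero _, fun hx hy => hC.add _ _ hx _ hy,
      fun a _ hx => hC.smul _ a _ hx⟩ (β l) ?_ ?_ ?_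
    · intro y y' hy hy'
      obtain ⟨a, ha⟩ := hC.rat _ _ _ hy _ (hC.weyl_mem hF.sl2 hw1 hw3 hlow hH hLh W_hbd hl hy')
      refine ⟨(-1) ^ (l : ℕ) * a, ?_⟩
      rw [hβa, map_mul (rho ι), map_pow, map_neg, map_one, ← ha, bil_apply]
    · intro y y' hy hy'
      rw [hβa, hβa]
      congr 1
      exact hC.weyl_symm hF.sl2 hw1 hw3 hlow hH hLh W_hbd hy hy'
    · intro y hy h0
      obtain ⟨a, ha, hpos⟩ := hC.weyl_pos hF.sl2 hw1 hw3 hlow hH hLh W_hbd hy h0
      refine ⟨_, hpos, ?_⟩
      rw [hβa, map_mul (rho ι), map_pow, map_neg, map_one, ← ha, bil_apply]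
  choose M e' w' he' hw' horth hspan using hb
  have hmemspan : ∀ l : ℕ, ∀ y, y ∈ CC h B E l →
      y ∈ span W.K (Set.range fun i : Σ l, Fin (M l) => e' i.1 i.2) := by
    intro l y hy
    by_cases hl : l < 2 * n + 1
    · have h1 := hspan ⟨l, hl⟩ (subset_span hy)
      refine span_mono ?_ h1
      rintro _ ⟨k, rfl⟩
      exact ⟨⟨⟨l, hl⟩, k⟩, rfl⟩
    · have h1 := CC_gr h B E hy
      rw [W.gr_eq_bot X (2 * l) (by rw [h.hn]; omega)] at h1
      rw [(mem_bot _).1 h1]
      exact zero_mem _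
  refine ⟨F, Σ l, Fin (M l), inferInstance, fun i => e' i.1 i.2, fun i => i.1,
    fun i => w' i.1 i.2, ⟨h.hD, hF.sl2, hF.aop, ?_, ?_, ?_, ?_, ?_, ?_, ?_, ?_⟩, ?_⟩
  · intro i
    exact CC_gr h B E (he' _ _)
  · intro i
    refine ⟨X.dim - i.1, ?_⟩
    have hi := i.1.2
    have := hF.w_mem (by rw [h.hn]; omega) (CC_gr h B E (he' i.1 i.2))
    rwa [show 2 * (X.dim - (i.1 : ℕ)) = 2 * X.dim - 2 * i.1 by omega]
  · intro i
    exact hw' _ _
  · intro i
    have h1 := horth i.1 i.2 i.2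
    rw [if_pos rfl, hβa] at h1
    have e2 : (-1 : W.K) ^ (i.1 : ℕ) * (-1) ^ (i.1 : ℕ) = 1 := by rw [← mul_pow]; simp
    rw [← rho_apply, ← h1, ← mul_assoc, e2, one_mul]
  · rintro ⟨l, k⟩ ⟨l', k'⟩ hne
    by_cases hl : l = l'
    · subst hl
      have h1 := horth l k k'
      rw [if_neg (fun h => hne (by rw [h])), hβa] at h1
      exact (mul_eq_zero.1 h1).resolve_left (pow_ne_zero _ (by norm_num))
    · have hi := l'.2
      have h1 := hF.w_mem (by rw [h.hn]; omega) (CC_gr h B E (he' l' k'))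
      apply W.tr_eq_zero (W.mul_mem (CC_gr h B E (he' l k)) h1)
      have h2 : (l : ℕ) ≠ l' := fun h => hl (Fin.ext h)
      have h3 := h.hn
      omega
  · intro i
    exact CC_cp h B E hLC (he' _ _)
  · exact hmemspan 0 1 ⟨1, RR.one, rfl⟩
  · intro y hy y' hy'
    induction hy using span_induction with
    | mem y hy =>
      obtain ⟨i, rfl⟩ := hy
      induction hy' using span_induction with
      | mem y' hy' =>
        obtain ⟨i', rfl⟩ := hy'
        obtain ⟨z, hz, hz'⟩ := he' i.1 i.2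
        obtain ⟨t, ht, ht'⟩ := he' i'.1 i'.2
        refine hmemspan (i.1 + i'.1) _ ⟨z * t, hz.mul ht, ?_⟩
        dsimp only
        rw [← hz', ← ht']
        rfl
      | zero => rw [mul_zero]; exact zero_mem _
      | add x y _ _ hx hy => rw [mul_add]; exact add_mem hx hy
      | smul c x _ hx => rw [mul_smul_comm]; exact smul_mem _ _ hx
    | zero => rw [zero_mul]; exact zero_mem _
    | add x y _ _ hx hy => rw [add_mul]; exact add_mem hx hy
    | smul c x _ hx => rw [smul_mul_assoc]; exact smul_mem _ _ hx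
  · intro y hy
    have h1 := span_gg h B E hy
    refine span_induction ?_ (zero_mem _) (fun _ _ _ _ => add_mem) (fun a _ _ => smul_mem _ a) h1
    rintro _ ⟨a, rfl⟩
    have h2 : gC h B E a ∈ Pr W.K (gC h B E) 1 :=
      subset_span ⟨{a}, by simp, by simp [mp]⟩
    have h3 := Pr_le (ι := ι) h2
    have h4 : ∀ z ∈ span W.K {y | RR ι (gC h B E) 1 y}, ((z : Cen W X) : W.H X) ∈
        span W.K (Set.range fun i : Σ l, Fin (M l) => e' i.1 i.2) := by
      intro z hz
      induction hz using span_induction with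
      | mem z hz => exact hmemspan 1 _ ⟨z, hz, rfl⟩
      | zero => exact zero_mem _
      | add a b _ _ ha hb => exact add_mem ha hb
      | smul c a _ ha => exact smul_mem _ _ ha
    exact h4 _ h3

end Data

end Pool.Agent.Y103.Vp
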