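import Pool.Agent.Y103.Vp.Pair
import Pool.Agent.Y103.Vp.Single

/-!
# Pull-backs of eigenvectors to a product
-/

set_option linter.unusedSectionVars false

open CategoryTheory AlgebraicGeometry Submodule

universe u v w

namespace Pool.Agent.Y103.Vp

open Pool.Agent.H914 Pool.Agent.H914.VarClass Pool.Agent.H914.VarClass.Obj
  Pool.Agent.H914.WeilCohomology Pool.Agent.H281R3.HT Pool.Agent.W552 Pool.Agent.Y103
  Pool.Agent.Y103.Fj Pool.Agent.Y103.Vb

variable {k : Type u} [Field k] {𝒱 : VarClass k} {ops : CycleOps 𝒱}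
  {W : WeilCohomology.{u, v} ops} {J : Type w} {P : J → PolVar 𝒱} {r : J → ℕ}

/-- The labels of the eigenvectors. -/
abbrev Lab {J : Type w} (r : J → ℕ) := Σ j, Fin (r j) × Bool

/-- The exchange of conjugate eigenvectors. -/
def lsw (t : Lab r) : Lab r := ⟨t.1, sw t.2⟩

lemma lsw_lsw (t : Lab r) : lsw (lsw t) = t := by
  obtain ⟨j, p⟩ := t
  simp [lsw, sw_sw]

/-- The eigenvectors of the members of a family. -/
structure TF (W : WeilCohomology.{u, v} ops) (ι : W.K ≃+* ℂ) (P : J → PolVar 𝒱) (q M : ℕ)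
    (r : J → ℕ) (x : ∀ j, Fin (r j) × Bool → W.H (P j).X)
    (lam : ∀ j, Fin (r j) × Bool → W.K) : Prop where
  mem : ∀ j p, x j p ∈ W.gr (P j).X 2
  eig : ∀ j p, (W.map (P j).f).toLinearMap (x j p) = lam j p • x j p
  pair : ∀ j p, CP ι (algRel W ((P j).X.prod (P j).X)) (xx W (x j (sw p)) (x j p))
    (xx W (x j p) (x j (sw p)))
  neat : ∀ s : Multiset (Lab r), s.card ≤ M → ∀ m ≥ 1,
    (s.map fun t => lam t.1 t.2).prod ^ m = (q : W.K) ^ (m * s.card) → ∃ t, s = t + t.map lsw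

/-- The pull-backs of eigenvectors. -/
abbrev Tok (P : J → PolVar 𝒱) (r : J → ℕ) (Q : PolVar 𝒱) :=
  Σ t : Lab r, {π : Q.X ⟶ (P t.1).X // Q.f ≫ π = π ≫ (P t.1).f}

/-- The exchange of conjugate eigenvectors. -/
def tsw {Q : PolVar 𝒱} (t : Tok P r Q) : Tok P r Q := ⟨lsw t.1, t.2⟩

section

variable {ι : W.K ≃+* ℂ} {q M : ℕ} {x : ∀ j, Fin (r j) × Bool → W.H (P j).X}
  {lam : ∀ j, Fin (r j) × Bool → W.K} (H : TF W ι P q M r x lam) {Q R : PolVar 𝒱}

/-- The class of a token. -/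
noncomputable def ev (H : TF W ι P q M r x lam) {Q : PolVar 𝒱} (t : Tok P r Q) : Cen W Q.X :=
  ⟨W.map t.2.1 (x t.1.1 t.1.2), gr2_center (W.map_mem _ (H.mem _ _))⟩

/-- Pairs of conjugate products. -/
def tokRel (H : TF W ι P q M r x lam) (Q : PolVar 𝒱) (y y' : W.H Q.X) : Prop :=
  ∃ (l : ℕ) (z : W.H Q.X), z ∈ algClasses W Q.X l ∧ ∃ T : Multiset (Tok P r Q),
    2 * T.card ≤ Q.X.dim ∧ y = z * ((T.map (ev H)).prod : Cen W Q.X) ∧
      y' = z * ((T.map (ev H ∘ tsw)).prod : Cen W Q.X)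

lemma coe_cons (t : Tok P r Q) (T : Multiset (Tok P r Q)) :
    ((((t ::ₘ T).map (ev H)).prod : Cen W Q.X) : W.H Q.X) =
      W.map t.2.1 (x t.1.1 t.1.2) * ((T.map (ev H)).prod : Cen W Q.X) := by
  rw [Multiset.map_cons, Multiset.prod_cons]
  rfl

lemma coe_tsw (T : Multiset (Tok P r Q)) :
    (T.map (ev H ∘ tsw)).prod = ((T.map tsw).map (ev H)).prod := by
  rw [Multiset.map_map]

lemma prod_gr (T : Multiset (Tok P r Q)) :
    (((T.map (ev H)).prod : Cen W Q.X) : W.H Q.X) ∈ W.gr Q.X (2 * T.card) := by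
  induction T using Multiset.induction_on with
  | empty =>
    rw [Multiset.map_zero, Multiset.prod_zero, Multiset.card_zero]
    exact W.one_mem _
  | cons t T ih =>
    rw [coe_cons, Multiset.card_cons, mul_add, add_comm]
    exact W.mul_mem (W.map_mem _ (H.mem _ _)) ih

lemma algRel_mul {Y : 𝒱.Obj} {y₁ y₁' y₂ y₂' : W.H Y} (h1 : CP ι (algRel W Y) y₁ y₁')
    (h2 : CP ι (algRel W Y) y₂ y₂') : CP ι (algRel W Y) (y₁ * y₂) (y₁' * y₂') := by
  refine h1.bilin h2 (LinearMap.mul W.K (W.H Y)) ?_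
  rintro a _ b _ ⟨l, ha, rfl⟩ ⟨l', hb, rfl⟩
  exact CP.base ⟨l + l', alg_mul ha hb, rfl⟩

include H in
/-- The product of two conjugate tokens. -/
lemma pair_tok (t t' : Tok P r Q) (h : t'.1 = lsw t.1) :
    CP ι (algRel W Q.X) (W.map t.2.1 (x t.1.1 t.1.2) * W.map t'.2.1 (x t'.1.1 t'.1.2))
      (W.map (tsw t).2.1 (x (tsw t).1.1 (tsw t).1.2) *
        W.map (tsw t').2.1 (x (tsw t').1.1 (tsw t').1.2)) := by
  obtain ⟨⟨j, p⟩, π, hπ⟩ := t
  obtain ⟨⟨j', p'⟩, π', hπ'⟩ := t'
  obtain ⟨rfl, h2⟩ := Sigma.mk.inj_iff.1 h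
  obtain rfl := eq_of_heq h2
  change CP ι (algRel W Q.X) (W.map π (x j' p) * W.map π' (x j' (sw p)))
    (W.map π (x j' (sw p)) * W.map π' (x j' (sw (sw p))))
  have h3 := H.pair j' (sw p)
  rw [sw_sw] at h3
  have h4 := h3.map (W.map (Obj.lift π π')).toLinearMap (S' := algRel W Q.X) (by
    rintro y _ ⟨l, hy, rfl⟩
    exact CP.base ⟨l, Pool.Agent.H281R3.HT.alg_map _ hy, rfl⟩)
  have e1 : ∀ y y' : W.H (P j').X, (W.map (Obj.lift π π')).toLinearMap (xx W y y') =
      W.map π y * W.map π' y' := by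
    intro y y'
    change W.map (Obj.lift π π') (W.map (fst _ _) y * W.map (snd _ _) y') = _
    rw [map_mul (W.map (Obj.lift π π')), ← W.map_comp, ← W.map_comp, Obj.lift_fst, Obj.lift_snd]
  rw [e1, e1] at h4
  rw [sw_sw]
  exact h4

lemma card_eq_of {s t : Multiset (Lab r)} (h : s = t + t.map lsw) : s.card = 2 * t.card := by
  rw [h, Multiset.card_add, Multiset.card_map]
  ring

/-- Balanced products. -/
lemma balanced_cp (t : Multiset (Lab r)) : ∀ T : Multiset (Tok P r Q),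
    T.map Sigma.fst = t + t.map lsw →
      CP ι (algRel W Q.X) (((T.map (ev H)).prod : Cen W Q.X) : W.H Q.X)
        (((T.map (ev H ∘ tsw)).prod : Cen W Q.X) : W.H Q.X) := by
  induction t using Multiset.induction_on with
  | empty =>
    intro T hT
    rw [Multiset.map_zero, add_zero, Multiset.map_eq_zero] at hT
    subst hT
    rw [Multiset.map_zero, Multiset.map_zero, Multiset.prod_zero]
    exact CP.base ⟨0, alg_one, rfl⟩
  | cons a t ih =>
    intro T hT
    rw [Multiset.map_cons, Multiset.cons_add, Multiset.add_cons] at hT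
    have h1 : a ∈ T.map Sigma.fst := by rw [hT]; exact Multiset.mem_cons_self _ _
    obtain ⟨τ, hτ, hτa⟩ := Multiset.mem_map.1 h1
    obtain ⟨T', rfl⟩ := Multiset.exists_cons_of_mem hτ
    rw [Multiset.map_cons, hτa, Multiset.cons_inj_right] at hT
    have h2 : lsw a ∈ T'.map Sigma.fst := by rw [hT]; exact Multiset.mem_cons_self _ _
    obtain ⟨τ', hτ', hτa'⟩ := Multiset.mem_map.1 h2
    obtain ⟨T'', rfl⟩ := Multiset.exists_cons_of_mem hτ'
    rw [Multiset.map_cons, hτa', Multiset.cons_inj_right] at hT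
    have h3 := ih T'' hT
    have h4 := pair_tok H τ τ' (by rw [hτa, hτa'])
    rw [coe_tsw, coe_cons, coe_cons, Multiset.map_cons tsw, Multiset.map_cons tsw, coe_cons,
      coe_cons, ← mul_assoc, ← mul_assoc, ← coe_tsw]
    exact algRel_mul h4 h3

/-- A class of top degree. -/
def HasTop (W : WeilCohomology.{u, v} ops) (Y : 𝒱.Obj) : Prop :=
  ∃ z, Y.IsCyc Y.dim z ∧ W.tr Y (W.cl Y z) ≠ 0

lemma pow_smul_of {V : Type*} [AddCommGroup V] [Module W.K V] {F : Module.End W.K V} {y : V}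
    {a : W.K} {m : ℕ} (h : (F ^ m) y = a • y) (m' : ℕ) : (F ^ (m * m')) y = a ^ m' • y := by
  rw [pow_mul]
  exact pow_iter_eig h m'

/-- **Products which pair nontrivially with algebraic classes are balanced.** -/
theorem balanced (hq : q ≠ 0) (hF : FrobeniusOnCycles W Q.X Q.f q) (htop : HasTop W Q.X)
    (hdim : Q.X.dim ≤ 2 * M) {l : ℕ} {z : W.H Q.X} (hz : z ∈ algClasses W Q.X l)
    (T : Multiset (Tok P r Q)) (hT : 2 * T.card ≤ Q.X.dim)
    (h0 : W.tr Q.X (z * ((T.map (ev H)).prod : Cen W Q.X)) ≠ 0) :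
    ∃ t : Multiset (Lab r), T.map Sigma.fst = t + t.map lsw := by
  obtain ⟨z, hz, rfl⟩ := hz
  obtain ⟨y, hy, hy0⟩ := htop
  obtain ⟨m, hm, hmz⟩ := hF l z hz
  obtain ⟨m', hm', hmy⟩ := hF _ y hy
  rw [cl_pull_iter] at hmz hmy
  set F : Module.End W.K (W.H Q.X) := (W.map Q.f).toLinearMap with hFdef
  have hqK : (q : W.K) ≠ 0 := by exact_mod_cast hq
  -- degrees
  have hdeg : l + T.card = Q.X.dim := by
    by_contra hne
    apply h0
    exact W.tr_eq_zero (W.mul_mem (W.cl_mem hz) (prod_gr H T)) (by omega)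
  have e1 : (F ^ (m * m')) (W.cl Q.X z) = (q : W.K) ^ (m * m' * l) • W.cl Q.X z := by
    rw [pow_smul_of hmz m', ← pow_mul]
    congr 2
    ring
  have e2 : (F ^ (m * m')) (W.cl Q.X y) = (q : W.K) ^ (m * m' * Q.X.dim) • W.cl Q.X y := by
    rw [mul_comm m m', pow_smul_of hmy m, ← pow_mul]
    congr 2
    ring
  set n := m * m' with hn
  have hn1 : n ≥ 1 := Nat.mul_pos hm hm'
  have e3 : ∀ T : Multiset (Tok P r Q), W.map (iter Q.f n) (((T.map (ev H)).prod : Cen W Q.X)) =
      ((T.map fun t => lam t.1.1 t.1.2).prod) ^ n •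
        (((T.map (ev H)).prod : Cen W Q.X) : W.H Q.X) := by
    intro T
    induction T using Multiset.induction_on with
    | empty =>
      rw [Multiset.map_zero, Multiset.map_zero, Multiset.prod_zero, Multiset.prod_zero, one_pow,
        one_smul]
      exact map_one (W.map (iter Q.f n))
    | cons t T ih =>
      have e4 : W.map (iter Q.f n) (W.map t.2.1 (x t.1.1 t.1.2)) =
          lam t.1.1 t.1.2 ^ n • W.map t.2.1 (x t.1.1 t.1.2) := by
        rw [map_iter]
        apply pow_iter_eig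
        change W.map Q.f (W.map t.2.1 _) = _
        rw [← W.map_comp, t.2.2, W.map_comp]
        have := H.eig t.1.1 t.1.2
        change W.map (P t.1.1).f _ = _ at this
        rw [this, map_smul]
      rw [coe_cons, map_mul (W.map (iter Q.f n)), e4, ih, smul_mul_smul_comm, Multiset.map_cons,
        Multiset.prod_cons, mul_pow]
  have h1 := tr_map_of_top (W := W) (φ := iter Q.f n) (W.cl_mem hy) hy0
    (by rw [map_iter]; exact e2) (W.cl Q.X z * ((T.map (ev H)).prod : Cen W Q.X))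
  rw [map_mul (W.map (iter Q.f n)), map_iter, e1, e3, smul_mul_smul_comm, map_smul,
    smul_eq_mul] at h1
  have h2 := mul_right_cancel₀ h0 h1
  have h3 : ((T.map fun t => lam t.1.1 t.1.2).prod) ^ n = (q : W.K) ^ (n * T.card) := by
    apply mul_left_cancel₀ (pow_ne_zero (n * l) hqK)
    rw [h2, ← pow_add, ← mul_add, hdeg]
  refine H.neat (T.map Sigma.fst) (by rw [Multiset.card_map]; omega) n hn1 ?_
  rw [Multiset.map_map, Multiset.card_map]
  exact h3

/-- **The values of algebraic classes on conjugate elements.** -/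
theorem tok_real (hq : q ≠ 0) (hF : FrobeniusOnCycles W Q.X Q.f q) (htop : HasTop W Q.X)
    (hdim : Q.X.dim ≤ 2 * M) (z : W.H Q.X) (hz : AS W Q.X z) (y y' : W.H Q.X)
    (h : tokRel H Q y y') : cj ι (W.tr Q.X (z * y)) = W.tr Q.X (z * y') := by
  obtain ⟨l', a, ha, T, hT, rfl, rfl⟩ := h
  refine AS.ind (p := fun z => cj ι (W.tr Q.X (z * (a *
      (((T.map (ev H)).prod : Cen W Q.X) : W.H Q.X)))) =
    W.tr Q.X (z * (a * (((T.map (ev H ∘ tsw)).prod : Cen W Q.X) : W.H Q.X)))) ?_ ?_ hz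
  · intro l z hz
    rw [← mul_assoc, ← mul_assoc]
    have hza := alg_mul hz ha
    have key : (∃ t : Multiset (Lab r), T.map Sigma.fst = t + t.map lsw) →
        cj ι (W.tr Q.X (z * a * ((T.map (ev H)).prod : Cen W Q.X))) =
          W.tr Q.X (z * a * ((T.map (ev H ∘ tsw)).prod : Cen W Q.X)) := by
      rintro ⟨t, ht⟩
      refine (balanced_cp H t T ht).fn (W.tr Q.X ∘ₗ LinearMap.mulLeft W.K (z * a)) ?_
      rintro y _ ⟨i, hy, rfl⟩
      obtain ⟨s, hs⟩ := alg_rat hza hy
      rw [bil_apply] at hs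
      change cj ι (W.tr Q.X (z * a * _)) = W.tr Q.X (z * a * _)
      rw [hs, cj_rat]
    by_cases h1 : W.tr Q.X (z * a * ((T.map (ev H)).prod : Cen W Q.X)) = 0
    · by_cases h2 : W.tr Q.X (z * a * ((T.map (ev H ∘ tsw)).prod : Cen W Q.X)) = 0
      · rw [h1, h2, map_zero]
      · apply key
        rw [coe_tsw] at h2
        obtain ⟨t, ht⟩ := balanced H hq hF htop hdim hza (T.map tsw)
          (by rw [Multiset.card_map]; exact hT) h2
        refine ⟨t, ?_⟩
        have h3 := congrArg (Multiset.map lsw) ht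
        have e1 : (lsw ∘ lsw : Lab r → Lab r) = id := funext lsw_lsw
        rw [Multiset.map_map, Multiset.map_map, Multiset.map_add, Multiset.map_map, e1,
          Multiset.map_id, add_comm] at h3
        rw [← h3]
        apply Multiset.map_congr rfl
        intro τ _
        exact (lsw_lsw _).symm
    · exact key (balanced H hq hF htop hdim hza T hT h1)
  · intro z z' h1 h2
    rw [add_mul, add_mul, map_add, map_add, map_add, h1, h2]

/-- Tokens on a product. -/
noncomputable def tokL (Q R : PolVar 𝒱) (t : Tok P r Q) : Tok P r (Q.prod ops R) :=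
  ⟨t.1, fst Q.X R.X ≫ t.2.1, by
    change Obj.lift (fst Q.X R.X ≫ Q.f) (snd Q.X R.X ≫ R.f) ≫ fst Q.X R.X ≫ t.2.1 = _
    rw [← Category.assoc, Obj.lift_fst, Category.assoc, Category.assoc, t.2.2]
    rfl⟩

/-- Tokens on a product. -/
noncomputable def tokR (Q R : PolVar 𝒱) (t : Tok P r R) : Tok P r (Q.prod ops R) :=
  ⟨t.1, snd Q.X R.X ≫ t.2.1, by
    change Obj.lift (fst Q.X R.X ≫ Q.f) (snd Q.X R.X ≫ R.f) ≫ snd Q.X R.X ≫ t.2.1 = _
    rw [← Category.assoc, Obj.lift_snd, Category.assoc, Category.assoc, t.2.2]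
    rfl⟩

lemma map_tokL (T : Multiset (Tok P r Q)) :
    W.map (fst Q.X R.X) (((T.map (ev H)).prod : Cen W Q.X) : W.H Q.X) =
      ((((T.map (tokL (ops := ops) Q R)).map (ev H)).prod : Cen W (Q.prod ops R).X) :
        W.H (Q.prod ops R).X) := by
  induction T using Multiset.induction_on with
  | empty => exact map_one (W.map (fst Q.X R.X))
  | cons t T ih =>
    rw [coe_cons, map_mul (W.map (fst Q.X R.X)), ih, Multiset.map_cons, coe_cons, ← W.map_comp]
    rfl

lemma map_tokR (T : Multiset (Tok P r R)) :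
    W.map (snd Q.X R.X) (((T.map (ev H)).prod : Cen W R.X) : W.H R.X) =
      ((((T.map (tokR (ops := ops) Q R)).map (ev H)).prod : Cen W (Q.prod ops R).X) :
        W.H (Q.prod ops R).X) := by
  induction T using Multiset.induction_on with
  | empty => exact map_one (W.map (snd Q.X R.X))
  | cons t T ih =>
    rw [coe_cons, map_mul (W.map (snd Q.X R.X)), ih, Multiset.map_cons, coe_cons, ← W.map_comp]
    rfl

/-- The relation on a product. -/
lemma prodRel_tok {y y' : W.H (Q.prod ops R).X}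
    (h : prodRel (W := W) (tokRel H Q) (tokRel H R) y y') :
    tokRel H (Q.prod ops R) y y' := by
  obtain ⟨_, _, _, _, ⟨l, z, hz, T, hT, rfl, rfl⟩, ⟨l', z', hz', T', hT', rfl, rfl⟩, rfl, rfl⟩ := h
  obtain ⟨A, hA⟩ : ∃ A : W.H (Q.prod ops R).X,
    A = W.map (fst Q.X R.X) z * W.map (snd Q.X R.X) z' := ⟨_, rfl⟩
  have key : ∀ (S : Multiset (Tok P r Q)) (S' : Multiset (Tok P r R)),
      W.map (fst Q.X R.X) (z * ((S.map (ev H)).prod : Cen W Q.X)) *
        W.map (snd Q.X R.X) (z' * ((S'.map (ev H)).prod : Cen W R.X)) =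
      A * ((((S.map (tokL (ops := ops) Q R) + S'.map (tokR Q R)).map (ev H)).prod :
          Cen W (Q.prod ops R).X) : W.H (Q.prod ops R).X) := by
    intro S S'
    have h1 := Subalgebra.mem_center_iff.1 (((S.map (tokL (ops := ops) Q R)).map (ev H)).prod).2
      (W.map (snd Q.X R.X) z' : W.H (Q.prod ops R).X)
    have h2 : ∀ a b c d : W.H (Q.prod ops R).X, b * c = c * b → a * c * (b * d) =
        a * b * (c * d) := by
      intro a b c d h
      rw [mul_assoc, ← mul_assoc c, ← h, mul_assoc, mul_assoc]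
    rw [map_mul (W.map (fst Q.X R.X)), map_mul (W.map (snd Q.X R.X)), map_tokL, map_tokR,
      Multiset.map_add, Multiset.prod_add, hA]
    exact h2 _ _ _ _ h1
  refine ⟨l + l', A, ?_, T.map (tokL Q R) + T'.map (tokR Q R), ?_, key T T', ?_⟩
  · rw [hA]
    exact alg_mul (Pool.Agent.H281R3.HT.alg_map (fst Q.X R.X) hz)
      (Pool.Agent.H281R3.HT.alg_map (snd Q.X R.X) hz')
  · rw [Multiset.card_add, Multiset.card_map, Multiset.card_map]
    change _ ≤ (Q.X.prod R.X).dim
    rw [dim_prod]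
    omega
  · have hcomm : (T.map (tokL (ops := ops) Q R) + T'.map (tokR Q R)).map tsw =
        (T.map tsw).map (tokL Q R) + (T'.map tsw).map (tokR Q R) := by
      rw [Multiset.map_add, Multiset.map_map, Multiset.map_map, Multiset.map_map,
        Multiset.map_map]
      rfl
    rw [coe_tsw, coe_tsw, key, coe_tsw, hcomm]

end

end Pool.Agent.Y103.Vp
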